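import Pool.Agent.N20.EW.Stm

/-!
Project EW, PF: isomorphic permutation modules of cyclic groups over any field (helper340).
-/

set_option autoImplicit false

noncomputable section

namespace Pool.Agent.N340.EWPF

open Finset Module

/-- number of fixed points -/
def nf {X : Type} (f : Equiv.Perm X) : ℕ := Nat.card {x : X // f x = x}

/-- the invariant functions -/
def W (F : Type) [Field F] {X : Type} (h : Equiv.Perm X) : Submodule F (X → F) where
  carrier := {u | ∀ x, u (h x) = u x}
  add_mem' := by
    intro a b ha hb x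
    show a (h x) + b (h x) = a x + b x
    rw [ha x, hb x]
  zero_mem' := fun _ => rfl
  smul_mem' := by
    intro c a ha x
    show c * a (h x) = c * a x
    rw [ha x]

theorem mem_W {F : Type} [Field F] {X : Type} {h : Equiv.Perm X} {u : X → F} :
    u ∈ W F h ↔ ∀ x, u (h x) = u x := Iff.rfl

theorem zpow_inv {F : Type} {X : Type} {h : Equiv.Perm X} {u : X → F}
    (hu : ∀ x, u (h x) = u x) (k : ℤ) : ∀ x, u ((h ^ k) x) = u x := by
  induction k using Int.induction_on with
  | zero => intro x; rfl
  | succ i ih =>
    intro x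
    rw [zpow_add_one, Equiv.Perm.mul_apply, ih, hu]
  | pred i ih =>
    intro x
    rw [zpow_sub_one, Equiv.Perm.mul_apply, ih, ← hu (h⁻¹ x)]
    exact congrArg u (h.apply_symm_apply x)

theorem finrank_W (F : Type) [Field F] {X : Type} [Fintype X] (h : Equiv.Perm X)
    [Fintype (Quotient (MulAction.orbitRel (Subgroup.zpowers h) X))] :
    finrank F (W F h) =
      Fintype.card (Quotient (MulAction.orbitRel (Subgroup.zpowers h) X)) := by
  have hr : LinearMap.range (LinearMap.funLeft F F
      (Quotient.mk (MulAction.orbitRel (Subgroup.zpowers h) X))) = W F h := by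
    ext u
    constructor
    · rintro ⟨v, rfl⟩
      intro x
      show v (Quotient.mk _ (h x)) = v (Quotient.mk _ x)
      congr 1
      exact Quotient.sound ⟨⟨h, Subgroup.mem_zpowers h⟩, rfl⟩
    · intro hu
      refine ⟨Quotient.lift u ?_, rfl⟩
      rintro a b ⟨⟨s, k, hk⟩, hab⟩
      have h1 : s b = a := hab
      have h2 : h ^ k = s := hk
      rw [← h1, ← h2]
      exact zpow_inv hu k b
  rw [← hr, LinearMap.finrank_range_of_inj
    (LinearMap.funLeft_injective_of_surjective F F _ Quotient.mk_surjective),
    finrank_fintype_fun_eq_card]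

theorem burn (F : Type) [Field F] {X : Type} [Finite X] (h : Equiv.Perm X) :
    ∑ i ∈ range (orderOf h), nf (h ^ i) = finrank F (W F h) * orderOf h := by
  classical
  have : Fintype X := Fintype.ofFinite X
  have hb := MulAction.sum_card_fixedBy_eq_card_orbits_mul_card_group (Subgroup.zpowers h) X
  have hs := (finEquivZPowers (isOfFinOrder_of_finite h)).sum_comp
    (fun a => Fintype.card (MulAction.fixedBy X a))
  rw [finrank_W, ← Fintype.card_zpowers (x := h), ← hb, ← hs, Fintype.card_zpowers,
    Finset.sum_range]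
  refine sum_congr rfl fun i _ => ?_
  rw [finEquivZPowers_apply, ← Nat.card_eq_fintype_card]
  rfl

variable {F : Type} [Field F] {X Y : Type}

theorem pow_comm' {f : Equiv.Perm X} {g : Equiv.Perm Y} {e : (X → F) ≃ₗ[F] (Y → F)}
    (he : ∀ u : X → F, e (fun x => u (f x)) = fun y => e u (g y)) (i : ℕ) :
    ∀ u : X → F, e (fun x => u ((f ^ i) x)) = fun y => e u ((g ^ i) y) := by
  induction i with
  | zero => intro u; rfl
  | succ i ih =>
    intro u
    have h1 := he (fun x => u ((f ^ i) x))
    rw [ih u] at h1
    simp only [pow_succ, Equiv.Perm.mul_apply]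
    exact h1

theorem eq_one_of [DecidableEq X] {f : Equiv.Perm X}
    (h : ∀ u : X → F, (fun x => u (f x)) = u) : f = 1 := by
  ext x
  have h1 := congrFun (h (fun y => if y = x then 1 else 0)) x
  simp only [if_true] at h1
  show f x = x
  by_contra h2
  rw [if_neg h2] at h1
  exact zero_ne_one h1

theorem one_iff {f : Equiv.Perm X} {g : Equiv.Perm Y} {e : (X → F) ≃ₗ[F] (Y → F)}
    (he : ∀ u : X → F, e (fun x => u (f x)) = fun y => e u (g y)) : f = 1 ↔ g = 1 := by
  classical
  constructor
  · rintro rfl
    refine eq_one_of (F := F) fun v => ?_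
    have h1 := he (e.symm v)
    rw [e.apply_symm_apply] at h1
    rw [← h1]
    exact e.apply_symm_apply v
  · rintro rfl
    refine eq_one_of (F := F) fun u => ?_
    exact e.injective (he u)

theorem W_map {f : Equiv.Perm X} {g : Equiv.Perm Y} {e : (X → F) ≃ₗ[F] (Y → F)}
    (he : ∀ u : X → F, e (fun x => u (f x)) = fun y => e u (g y)) :
    (W F f).map (e : (X → F) →ₗ[F] (Y → F)) = W F g := by
  ext v
  constructor
  · rintro ⟨u, hu, rfl⟩
    intro y
    have h1 := congrFun (he u) y
    rw [show (fun x => u (f x)) = u from funext hu] at h1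
    exact h1.symm
  · intro hv
    refine ⟨e.symm v, ?_, e.apply_symm_apply v⟩
    have h1 := he (e.symm v)
    rw [e.apply_symm_apply] at h1
    rw [show (fun y => v (g y)) = v from funext hv] at h1
    have h2 : (fun x => e.symm v (f x)) = e.symm v := by
      apply e.injective
      rw [h1, e.apply_symm_apply]
    exact fun x => congrFun h2 x

theorem nf_pow [Finite X] (f : Equiv.Perm X) {n i : ℕ} (hn : f ^ n = 1) (hi : n.Coprime i) :
    nf (f ^ i) = nf f := by
  have h : ∀ x, (f ^ i) x = x ↔ f x = x := by
    intro x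
    have e1 : ∀ j : ℕ, (f ^ j) x = x ↔ Function.IsPeriodicPt f j x := by
      intro j
      rw [← Equiv.Perm.iterate_eq_pow]
      exact Iff.rfl
    have h1 : Function.IsPeriodicPt f n x := (e1 n).1 (by rw [hn]; rfl)
    have h2 := e1 1
    rw [pow_one] at h2
    rw [e1 i, h2]
    constructor
    · intro h3
      have h4 := h1.gcd h3
      rwa [hi] at h4
    · intro h3
      exact h3.trans_dvd (one_dvd i)
  exact Nat.card_congr (Equiv.subtypeEquivRight h)

theorem key [Finite X] [Finite Y] (n : ℕ) : ∀ (f : Equiv.Perm X) (g : Equiv.Perm Y)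
    (e : (X → F) ≃ₗ[F] (Y → F)), (∀ u : X → F, e (fun x => u (f x)) = fun y => e u (g y)) →
    orderOf f = n → nf f = nf g := by
  induction n using Nat.strong_induction_on with
  | _ n ih =>
    intro f g e he hn
    have hord : orderOf f = orderOf g :=
      orderOf_eq_orderOf_iff.2 fun i => one_iff (pow_comm' he i)
    have hpos : 0 < n := by rw [← hn]; exact orderOf_pos f
    have hW : finrank F (W F f) = finrank F (W F g) := by
      rw [← W_map he, LinearEquiv.finrank_map_eq]
    have h1 : ∑ i ∈ range n, nf (f ^ i) = ∑ i ∈ range n, nf (g ^ i) := by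
      have h2 := burn F f
      have h3 := burn F g
      rw [← hord, ← hW, ← h2, hn] at h3
      exact h3.symm
    rw [← sum_filter_add_sum_filter_not (range n) (fun i => n.Coprime i),
      ← sum_filter_add_sum_filter_not (range n) (fun i => n.Coprime i) (fun i => nf (g ^ i))] at h1
    have h2 : ∑ i ∈ (range n).filter (fun i => ¬ n.Coprime i), nf (f ^ i) =
        ∑ i ∈ (range n).filter (fun i => ¬ n.Coprime i), nf (g ^ i) := by
      refine sum_congr rfl fun i hi => ?_
      have hi2 := (mem_filter.1 hi).2
      refine ih (orderOf (f ^ i)) ?_ (f ^ i) (g ^ i) e (pow_comm' he i) rfl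
      rw [orderOf_pow, hn]
      have h3 : Nat.gcd n i ≠ 1 := hi2
      have h4 : 0 < Nat.gcd n i := Nat.gcd_pos_of_pos_left i hpos
      exact Nat.div_lt_self hpos (by omega)
    rw [h2] at h1
    have h3 := Nat.add_right_cancel h1
    have hf1 : f ^ n = 1 := by rw [← hn]; exact pow_orderOf_eq_one f
    have hg1 : g ^ n = 1 := by rw [← hn, hord]; exact pow_orderOf_eq_one g
    have h4 : ∑ i ∈ (range n).filter (fun i => n.Coprime i), nf (f ^ i) = n.totient * nf f := by
      rw [sum_congr rfl fun i hi => nf_pow f hf1 (mem_filter.1 hi).2, sum_const, smul_eq_mul,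
        Nat.totient_eq_card_coprime]
    have h5 : ∑ i ∈ (range n).filter (fun i => n.Coprime i), nf (g ^ i) = n.totient * nf g := by
      rw [sum_congr rfl fun i hi => nf_pow g hg1 (mem_filter.1 hi).2, sum_const, smul_eq_mul,
        Nat.totient_eq_card_coprime]
    rw [h4, h5] at h3
    exact Nat.eq_of_mul_eq_mul_left (Nat.totient_pos.2 hpos) h3

/-- **PF**: isomorphic permutation modules of cyclic groups. -/
theorem PF : Pool.Agent.N20.EW.S_PF := by
  intro F _ X Y _ _ f g e he k
  exact key (F := F) (orderOf (f ^ k)) (f ^ k) (g ^ k) e (pow_comm' he k) rfl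

end Pool.Agent.N340.EWPF
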