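import Pool.Agent.N795.BV.Stm

/-!
# Project BV (helper795), part PHIA (helper340): second order expansion
-/

set_option autoImplicit false

namespace Pool.Agent.N795.BV

namespace H340

/-- the constants -/
def Cst : ℕ → ℝ
  | 0 => 0
  | (k + 1) => 2 * Cst k + (k : ℝ) ^ 2

lemma Cst_nonneg : ∀ k : ℕ, 0 ≤ Cst k
  | 0 => le_refl _
  | (k + 1) => by
    have := Cst_nonneg k
    unfold Cst
    positivity

/-- twice the second elementary symmetric function -/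
noncomputable def e2 {ι : Type} (u : ι → ℂ) (s : Finset ι) : ℂ :=
  ((∑ i ∈ s, u i) ^ 2 - ∑ i ∈ s, (u i) ^ 2) / 2

lemma e2_norm {ι : Type} (u : ι → ℂ) (η : ℝ) (h0 : 0 ≤ η) (hu : ∀ i, ‖u i‖ ≤ η)
    (s : Finset ι) : ‖e2 u s‖ ≤ (s.card : ℝ) ^ 2 * η ^ 2 := by
  have h1 : ‖∑ i ∈ s, u i‖ ≤ s.card * η := by
    refine (norm_sum_le _ _).trans ?_
    refine (Finset.sum_le_sum (fun i _ => hu i)).trans ?_
    simp
  have h2 : ‖∑ i ∈ s, (u i) ^ 2‖ ≤ s.card * η ^ 2 := by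
    refine (norm_sum_le _ _).trans ?_
    refine (Finset.sum_le_sum (g := fun _ => η ^ 2) (fun i _ => ?_)).trans ?_
    · rw [norm_pow]
      exact pow_le_pow_left₀ (norm_nonneg _) (hu i) 2
    · simp
  have h3 : ‖(∑ i ∈ s, u i) ^ 2‖ ≤ (s.card * η) ^ 2 := by
    rw [norm_pow]
    exact pow_le_pow_left₀ (norm_nonneg _) h1 2
  unfold e2
  rw [norm_div]
  have h4 : ‖(2 : ℂ)‖ = 2 := by simp
  rw [h4, div_le_iff₀ (by norm_num)]
  refine (norm_sub_le _ _).trans ?_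
  have h5 : (s.card : ℝ) * η ^ 2 ≤ (s.card : ℝ) ^ 2 * η ^ 2 := by
    apply mul_le_mul_of_nonneg_right ?_ (by positivity)
    have : (s.card : ℕ) ≤ s.card ^ 2 := Nat.le_self_pow (by norm_num) _
    exact_mod_cast this
  nlinarith

lemma e2_insert {ι : Type} [DecidableEq ι] (u : ι → ℂ) (s : Finset ι) (j : ι) (hj : j ∉ s) :
    e2 u (insert j s) = e2 u s + u j * ∑ i ∈ s, u i := by
  unfold e2
  rw [Finset.sum_insert hj, Finset.sum_insert hj]
  ring

lemma expand {ι : Type} [DecidableEq ι] (u : ι → ℂ) (η : ℝ) (h0 : 0 ≤ η)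
    (hu : ∀ i, ‖u i‖ ≤ η) (h1 : η ≤ 1) (t : ℝ) (ht0 : 0 ≤ t) (ht1 : t ≤ 1) (s : Finset ι) :
    ‖∏ i ∈ s, ((t : ℂ) - u i) - ((t : ℂ) ^ s.card - (t : ℂ) ^ (s.card - 1) * ∑ i ∈ s, u i +
      (t : ℂ) ^ (s.card - 2) * e2 u s)‖ ≤ Cst s.card * η ^ 3 := by
  induction s using Finset.induction_on with
  | empty => simp [e2, Cst]
  | insert j s hj ih =>
    rw [Finset.prod_insert hj, Finset.sum_insert hj, Finset.card_insert_of_notMem hj,
      e2_insert u s j hj]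
    have hs1 : (t : ℂ) * ((t : ℂ) ^ (s.card - 1) * ∑ i ∈ s, u i) =
        (t : ℂ) ^ s.card * ∑ i ∈ s, u i := by
      rcases s.eq_empty_or_nonempty with rfl | hne
      · simp
      · rw [← mul_assoc, ← pow_succ', Nat.sub_add_cancel (Finset.card_pos.mpr hne)]
    have hs2 : (t : ℂ) * ((t : ℂ) ^ (s.card - 2) * e2 u s) =
        (t : ℂ) ^ (s.card - 1) * e2 u s := by
      rcases Nat.lt_or_ge s.card 2 with h | h
      · have he : e2 u s = 0 := by
          rcases Nat.eq_zero_or_pos s.card with h' | h'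
          · rw [Finset.card_eq_zero] at h'
            subst h'
            simp [e2]
          · obtain ⟨a, rfl⟩ := Finset.card_eq_one.mp (show s.card = 1 by omega)
            simp [e2]
        rw [he]; simp
      · rw [← mul_assoc, ← pow_succ']
        congr 2
        omega
    have e : ((t : ℂ) - u j) * ∏ i ∈ s, ((t : ℂ) - u i) - ((t : ℂ) ^ (s.card + 1) -
        (t : ℂ) ^ (s.card + 1 - 1) * (u j + ∑ i ∈ s, u i) +
        (t : ℂ) ^ (s.card + 1 - 2) * (e2 u s + u j * ∑ i ∈ s, u i)) =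
        ((t : ℂ) - u j) * (∏ i ∈ s, ((t : ℂ) - u i) - ((t : ℂ) ^ s.card -
          (t : ℂ) ^ (s.card - 1) * ∑ i ∈ s, u i + (t : ℂ) ^ (s.card - 2) * e2 u s)) -
          u j * (t : ℂ) ^ (s.card - 2) * e2 u s := by
      rw [show s.card + 1 - 1 = s.card by omega, show s.card + 1 - 2 = s.card - 1 by omega]
      linear_combination hs2 - hs1
    rw [e]
    have n1 : ‖(t : ℂ) - u j‖ ≤ 2 := by
      refine (norm_sub_le _ _).trans ?_
      have : ‖(t : ℂ)‖ ≤ 1 := by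
        rw [Complex.norm_real, Real.norm_eq_abs, abs_of_nonneg ht0]; exact ht1
      linarith [hu j]
    have n2 : ‖u j * (t : ℂ) ^ (s.card - 2) * e2 u s‖ ≤ (s.card : ℝ) ^ 2 * η ^ 3 := by
      rw [norm_mul, norm_mul, norm_pow]
      have h2 : ‖(t : ℂ)‖ ^ (s.card - 2) ≤ 1 := by
        rw [Complex.norm_real, Real.norm_eq_abs, abs_of_nonneg ht0]
        exact pow_le_one₀ ht0 ht1
      have h3 : ‖u j‖ * ‖(t : ℂ)‖ ^ (s.card - 2) ≤ η * 1 :=
        mul_le_mul (hu j) h2 (by positivity) h0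
      calc ‖u j‖ * ‖(t : ℂ)‖ ^ (s.card - 2) * ‖e2 u s‖ ≤ (η * 1) * ((s.card : ℝ) ^ 2 * η ^ 2) :=
            mul_le_mul h3 (e2_norm u η h0 hu s) (norm_nonneg _) (by positivity)
        _ = (s.card : ℝ) ^ 2 * η ^ 3 := by ring
    refine (norm_sub_le _ _).trans ?_
    rw [norm_mul]
    have n3 : ‖(t : ℂ) - u j‖ * ‖∏ i ∈ s, ((t : ℂ) - u i) - ((t : ℂ) ^ s.card -
          (t : ℂ) ^ (s.card - 1) * ∑ i ∈ s, u i + (t : ℂ) ^ (s.card - 2) * e2 u s)‖ ≤
        2 * (Cst s.card * η ^ 3) :=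
      mul_le_mul n1 ih (norm_nonneg _) (by norm_num)
    rw [show Cst (s.card + 1) = 2 * Cst s.card + (s.card : ℝ) ^ 2 from rfl]
    linarith

end H340

open H340

theorem phia : S_PHIA := by
  intro m hm
  refine ⟨((m : ℝ) + 1) * (Cst m + 1), by have := Cst_nonneg m; positivity, ?_⟩
  intro u η hη hu hsum
  have h0 : 0 ≤ η := (norm_nonneg _).trans (hu ⟨0, by omega⟩)
  set S : ℂ := ∑ i, (u i) ^ 2 with hS
  have he2 : e2 u Finset.univ = - S / 2 := by
    unfold e2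
    rw [hsum, ← hS]; ring
  -- the error
  have hE : ∀ t ∈ Set.uIoc (0 : ℝ) 1, ‖∏ i, ((t : ℂ) - u i) -
      ((t : ℂ) ^ m - (t : ℂ) ^ (m - 2) * (S / 2))‖ ≤ Cst m * η ^ 3 := by
    intro t ht
    rw [Set.uIoc_of_le (by norm_num)] at ht
    have := expand u η h0 hu hη t ht.1.le ht.2 Finset.univ
    rw [hsum, he2, Finset.card_univ, Fintype.card_fin, mul_zero, sub_zero] at this
    refine le_trans (le_of_eq ?_) this
    congr 1
    ring
  have hcont : Continuous fun t : ℝ => ∏ i, ((t : ℂ) - u i) := by fun_prop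
  have hcont2 : Continuous fun t : ℝ => (t : ℂ) ^ m - (t : ℂ) ^ (m - 2) * (S / 2) := by fun_prop
  have hI : ∫ t in (0 : ℝ)..1, ((t : ℂ) ^ m - (t : ℂ) ^ (m - 2) * (S / 2)) =
      1 / ((m : ℂ) + 1) - 1 / ((m : ℂ) - 1) * (S / 2) := by
    rw [intervalIntegral.integral_sub (Continuous.intervalIntegrable (by fun_prop) _ _)
      (Continuous.intervalIntegrable (by fun_prop) _ _), intervalIntegral.integral_mul_const]
    have hp : ∀ k : ℕ, ∫ t in (0 : ℝ)..1, (t : ℂ) ^ k = 1 / ((k : ℂ) + 1) := by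
      intro k
      have : ∀ t : ℝ, (t : ℂ) ^ k = ((t ^ k : ℝ) : ℂ) := by intro t; push_cast; rfl
      simp only [this]
      rw [intervalIntegral.integral_ofReal, integral_pow]
      push_cast
      simp
    rw [hp, hp]
    have hc : ((m - 2 : ℕ) : ℂ) + 1 = (m : ℂ) - 1 := by
      rw [Nat.cast_sub hm]; push_cast; ring
    rw [hc]
  have hm1 : (m : ℂ) + 1 ≠ 0 := by exact_mod_cast Nat.succ_ne_zero m
  have hm2 : (m : ℂ) - 1 ≠ 0 := by
    rw [sub_ne_zero]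
    exact_mod_cast (by omega : m ≠ 1)
  have key : ((m : ℂ) + 1) * (∫ t in (0 : ℝ)..1, ∏ i, ((t : ℂ) - u i)) - 1 +
      ((m : ℂ) + 1) / (2 * ((m : ℂ) - 1)) * S =
      ((m : ℂ) + 1) * ∫ t in (0 : ℝ)..1, (∏ i, ((t : ℂ) - u i) -
        ((t : ℂ) ^ m - (t : ℂ) ^ (m - 2) * (S / 2))) := by
    rw [intervalIntegral.integral_sub (hcont.intervalIntegrable _ _)
      (hcont2.intervalIntegrable _ _), hI]
    field_simp
    ring
  rw [key, norm_mul]
  have h1 : ‖(m : ℂ) + 1‖ = (m : ℝ) + 1 := by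
    have : ((m : ℂ) + 1) = (((m : ℝ) + 1 : ℝ) : ℂ) := by push_cast; rfl
    rw [this, Complex.norm_real, Real.norm_eq_abs, abs_of_nonneg (by positivity)]
  rw [h1]
  have h2 := intervalIntegral.norm_integral_le_of_norm_le_const hE
  rw [sub_zero, abs_one, mul_one] at h2
  have h3 : Cst m * η ^ 3 ≤ (Cst m + 1) * η ^ 3 := by
    apply mul_le_mul_of_nonneg_right (by linarith) (by positivity)
  calc ((m : ℝ) + 1) * _ ≤ ((m : ℝ) + 1) * ((Cst m + 1) * η ^ 3) :=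
        mul_le_mul_of_nonneg_left (h2.trans h3) (by positivity)
    _ = ((m : ℝ) + 1) * (Cst m + 1) * η ^ 3 := by ring

end Pool.Agent.N795.BV
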