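import Pool.Agent.N979.CAP.Stm

/-!
# Project CAP (helper979), RRR: a numerical bound for `2 s sin (arcsin s / s)` (helper340)
-/

set_option autoImplicit false

open Real

namespace Pool.Agent.N340.CAP.RRR

theorem sin_small : sin (0.411424 : ℝ) ≤ 0.4 := by
  have h := (abs_le.1 (Real.sin_bound (x := 0.411424) (by rw [abs_of_pos] <;> norm_num))).2
  rw [abs_of_pos (by norm_num : (0 : ℝ) < 0.411424)] at h
  norm_num at h ⊢
  linarith

theorem cos_small : cos (0.305796 : ℝ) ≤ 0.9537 := by
  have h := (abs_le.1 (Real.cos_bound (x := 0.305796) (by rw [abs_of_pos] <;> norm_num))).2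
  rw [abs_of_pos (by norm_num : (0 : ℝ) < 0.305796)] at h
  norm_num at h ⊢
  linarith

theorem sin_1265 : sin (1.265 : ℝ) ≤ 0.9537 := by
  have h1 := Real.pi_gt_d6
  have h2 := Real.pi_lt_d6
  have h3 : sin (1.265 : ℝ) = cos (π / 2 - 1.265) := (Real.cos_pi_div_two_sub _).symm
  rw [h3]
  refine le_trans ?_ cos_small
  apply Real.cos_le_cos_of_nonneg_of_le_pi
  · norm_num
  · linarith
  · norm_num at h1 ⊢
    linarith

theorem key {s : ℝ} (hs : 0 < s) (h : s ^ 2 ≤ 21 / 25) : s ≤ sin (1.265 * s) := by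
  have p1 := Real.pi_gt_d6
  have p2 := Real.pi_lt_d6
  norm_num at p1 p2
  obtain ⟨r, hr⟩ : ∃ r, r = √(21 / 25 : ℝ) := ⟨_, rfl⟩
  have hr2 : r ^ 2 = 21 / 25 := by rw [hr, Real.sq_sqrt (by norm_num)]
  have hr0 : 0 < r := by rw [hr]; exact Real.sqrt_pos.2 (by norm_num)
  have hr3 : 0.9165 < r := by
    norm_num
    nlinarith
  have hr4 : r < 0.91652 := by
    norm_num
    nlinarith
  norm_num at hr3 hr4
  have hsr : s ≤ r := by
    by_contra hc
    push Not at hc
    nlinarith
  have hc : cos (1.265 * r) ≤ 0.4 := by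
    rw [← Real.sin_pi_div_two_sub]
    refine le_trans ?_ sin_small
    apply Real.sin_le_sin_of_le_of_le_pi_div_two
    · norm_num
      linarith
    · norm_num
      linarith
    · norm_num
      linarith
  have hc0 : 0 ≤ cos (1.265 * r) := by
    apply Real.cos_nonneg_of_mem_Icc
    constructor
    · norm_num
      linarith
    · norm_num
      linarith
  have hsp : 0 ≤ sin (1.265 * r) := by
    apply Real.sin_nonneg_of_nonneg_of_le_pi
    · positivity
    · norm_num
      linarith
  have hs1 : r ≤ sin (1.265 * r) := by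
    have h1 := Real.sin_sq_add_cos_sq (1.265 * r)
    norm_num at hc
    have h2 : cos (1.265 * r) ^ 2 ≤ 4 / 25 := by nlinarith
    by_contra hcon
    push Not at hcon
    nlinarith
  obtain ⟨k, hk⟩ : ∃ k, k = s / r := ⟨_, rfl⟩
  have hk0 : 0 ≤ k := by rw [hk]; positivity
  have hk1 : k ≤ 1 := by rw [hk, div_le_one hr0]; exact hsr
  have hks : k * r = s := by rw [hk]; field_simp
  have hconc := strictConcaveOn_sin_Icc.concaveOn.2 (x := 1.265 * r) (y := 0)
    ⟨by positivity, by norm_num; linarith⟩ ⟨le_rfl, Real.pi_pos.le⟩ hk0 (sub_nonneg.2 hk1)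
    (by ring)
  rw [smul_eq_mul, smul_eq_mul, smul_eq_mul, smul_eq_mul, Real.sin_zero, mul_zero,
    add_zero, add_zero] at hconc
  have h5 : k * (1.265 * r) = 1.265 * s := by rw [← hks]; ring
  rw [h5] at hconc
  refine le_trans ?_ hconc
  calc s = k * r := hks.symm
    _ ≤ k * sin (1.265 * r) := mul_le_mul_of_nonneg_left hs1 hk0

theorem main : Pool.Agent.N979.CAP.S_RRR := by
  intro s hs h
  have p1 := Real.pi_gt_d6
  norm_num at p1
  have hs1 : s < 0.91652 := by
    norm_num
    nlinarith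
  norm_num at hs1
  have h1 : arcsin s ≤ 1.265 * s := by
    rw [Real.arcsin_le_iff_le_sin ⟨by linarith, by linarith⟩
      ⟨by norm_num; nlinarith, by norm_num; nlinarith⟩]
    exact key hs h
  have h2 : arcsin s / s ≤ 1.265 := by
    rw [div_le_iff₀ hs]
    exact h1
  have h3 : 0 ≤ arcsin s / s := div_nonneg (Real.arcsin_nonneg.2 hs.le) hs.le
  have h4 : sin (arcsin s / s) ≤ sin 1.265 := by
    apply Real.sin_le_sin_of_le_of_le_pi_div_two
    · linarith [Real.pi_pos]
    · norm_num
      linarith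
    · exact h2
  have h5 := h4.trans sin_1265
  have h6 : 2 * s * sin (arcsin s / s) ≤ 2 * s * 0.9537 :=
    mul_le_mul_of_nonneg_left h5 (by positivity)
  refine h6.trans ?_
  norm_num
  linarith

end Pool.Agent.N340.CAP.RRR
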