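import Mathlib

/-!
# Ky Fan's maximum principle (the easy direction)
-/

set_option autoImplicit false

open Finset

namespace Pool.Agent.N340

/-- rearrangement: weights in `[0,1]` with total `k` against an antitone sequence -/
theorem weights_le {n : ℕ} (ev : Fin n → ℝ) (hev : Antitone ev) (c : Fin n → ℝ)
    (h0 : ∀ i, 0 ≤ c i) (h1 : ∀ i, c i ≤ 1) (k : ℕ) (hk : k < n) (hc : ∑ i, c i = k) :
    ∑ i, ev i * c i ≤ ∑ i : Fin n, if (i : ℕ) < k then ev i else 0 := by
  set t := ev ⟨k, hk⟩ with ht
  have hcard : ∑ i : Fin n, (if (i : ℕ) < k then (1 : ℝ) else 0) = k := by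
    rw [Fin.sum_univ_eq_sum_range (fun i : ℕ => if i < k then (1 : ℝ) else 0) n,
      ← Finset.sum_filter]
    have : (range n).filter (fun i => i < k) = range k := by ext i; simp; omega
    rw [this]; simp
  have key : ∀ i : Fin n, (ev i - t) * c i ≤ if (i : ℕ) < k then ev i - t else 0 := by
    intro i
    split_ifs with h
    · have : t ≤ ev i := hev (by rw [Fin.le_def]; exact h.le)
      nlinarith [h0 i, h1 i]
    · have : ev i ≤ t := hev (by rw [Fin.le_def]; simpa using h)
      nlinarith [h0 i, h1 i]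
  have hs := Finset.sum_le_sum fun i (_ : i ∈ (univ : Finset (Fin n))) => key i
  have e1 : ∑ i, (ev i - t) * c i = ∑ i, ev i * c i - t * k := by
    rw [← hc, Finset.mul_sum, ← Finset.sum_sub_distrib]
    exact Finset.sum_congr rfl fun i _ => by ring
  have e2 : ∑ i : Fin n, (if (i : ℕ) < k then ev i - t else 0)
      = (∑ i : Fin n, if (i : ℕ) < k then ev i else 0) - t * k := by
    rw [← hcard, Finset.mul_sum, ← Finset.sum_sub_distrib]
    refine Finset.sum_congr rfl fun i _ => ?_
    split_ifs <;> ring
  rw [e1, e2] at hs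
  linarith

/-- Ky Fan: the sum of the quadratic form over `k` members of an orthonormal basis is at most the
sum of the `k` largest eigenvalues. -/
theorem kyFan {V : Type*} [Fintype V] [DecidableEq V] (M : Matrix V V ℝ) (hM : M.IsHermitian)
    (u : OrthonormalBasis V ℝ (EuclideanSpace ℝ V)) (s : Finset V) (hs : s.card < Fintype.card V) :
    ∑ i ∈ s, ∑ v, ∑ w, u i v * (M v w * u i w)
      ≤ ∑ i : Fin (Fintype.card V), if (i : ℕ) < s.card then hM.eigenvalues₀ i else 0 := by
  let e : Fin (Fintype.card V) ≃ V := Fintype.equivOfCardEq (Fintype.card_fin _)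
  let b := hM.eigenvectorBasis
  -- quadratic form in the eigenbasis
  have hq : ∀ x : EuclideanSpace ℝ V, ∑ v, ∑ w, x v * (M v w * x w)
      = ∑ j, hM.eigenvalues j * (inner ℝ (b j) x) ^ 2 := by
    intro x
    have h1 : ∑ v, ∑ w, x v * (M v w * x w) = inner ℝ (WithLp.toLp 2 (M.mulVec x.ofLp)) x := by
      simp only [PiLp.inner_apply, Matrix.mulVec, dotProduct, RCLike.inner_apply, conj_trivial]
      refine Finset.sum_congr rfl fun v _ => ?_
      rw [Finset.mul_sum]
    rw [h1, ← b.sum_inner_mul_inner]
    refine Finset.sum_congr rfl fun j _ => ?_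
    have h2 : inner ℝ (WithLp.toLp 2 (M.mulVec x.ofLp)) (b j)
        = hM.eigenvalues j * inner ℝ (b j) x := by
      have h3 := hM.mulVec_eigenvectorBasis j
      have h4 : inner ℝ (WithLp.toLp 2 (M.mulVec x.ofLp)) (b j)
          = inner ℝ (WithLp.toLp 2 (M.mulVec (b j).ofLp)) x := by
        simp only [PiLp.inner_apply, Matrix.mulVec, dotProduct, RCLike.inner_apply, conj_trivial]
        simp only [Finset.mul_sum]
        rw [Finset.sum_comm]
        refine Finset.sum_congr rfl fun v _ => Finset.sum_congr rfl fun w _ => ?_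
        have : M w v = M v w := by
          have := congrFun (congrFun hM v) w
          simpa using this
        rw [this]; ring
      rw [h4]
      have h5 : (WithLp.toLp 2 (M.mulVec (b j).ofLp)) = hM.eigenvalues j • b j := by
        ext v
        have := congrFun h3 v
        simpa using this
      rw [h5, inner_smul_left]
      simp
    rw [h2]
    ring
  simp only [hq]
  rw [Finset.sum_comm]
  have h3 : ∑ j, ∑ i ∈ s, hM.eigenvalues j * (inner ℝ (b j) (u i)) ^ 2
      = ∑ j : Fin (Fintype.card V), hM.eigenvalues₀ j * ∑ i ∈ s, (inner ℝ (b (e j)) (u i)) ^ 2 := by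
    rw [← Equiv.sum_comp e]
    refine Finset.sum_congr rfl fun j _ => ?_
    rw [Finset.mul_sum]
    refine Finset.sum_congr rfl fun i _ => ?_
    simp [Matrix.IsHermitian.eigenvalues, e]
  rw [h3]
  refine weights_le _ hM.eigenvalues₀_antitone _ (fun j => Finset.sum_nonneg fun i _ => sq_nonneg _)
    (fun j => ?_) _ hs ?_
  · have h4 : ∑ i, (inner ℝ (b (e j)) (u i)) ^ 2 = 1 := by
      have h5 := u.sum_inner_mul_inner (b (e j)) (b (e j))
      rw [real_inner_self_eq_norm_sq, b.norm_eq_one] at h5
      rw [← show ((1 : ℝ) ^ 2 = 1) by norm_num, ← h5]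
      refine Finset.sum_congr rfl fun i _ => ?_
      rw [real_inner_comm (b (e j)) (u i)]
      ring
    rw [← h4]
    exact Finset.sum_le_sum_of_subset_of_nonneg (Finset.subset_univ _) fun i _ _ => sq_nonneg _
  · rw [Finset.sum_comm]
    have h6 : ∀ i, ∑ j : Fin (Fintype.card V), (inner ℝ (b (e j)) (u i)) ^ 2 = 1 := by
      intro i
      rw [Equiv.sum_comp e (fun j => (inner ℝ (b j) (u i)) ^ 2)]
      have h5 := b.sum_inner_mul_inner (u i) (u i)
      rw [real_inner_self_eq_norm_sq, u.norm_eq_one] at h5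
      rw [← show ((1 : ℝ) ^ 2 = 1) by norm_num, ← h5]
      refine Finset.sum_congr rfl fun j _ => ?_
      rw [real_inner_comm (b j) (u i)]
      ring
    simp [h6]

end Pool.Agent.N340
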