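import Pool.Agent.N367.LE.Stm

/-! The quadratic order is a Dedekind domain and isomorphic to the ring of integers (helper340). -/

set_option autoImplicit false

namespace Pool.Agent.N340.LEG0

open H419R2 Module

theorem order_equiv {K : Type} [Field K] [NumberField K] {m R : ℤ} (hm : m % 2 = 1) {D : ℤ}
    (hDm : D = m ^ 2 + 4 * R) (hsf : Squarefree D) (hD1 : 1 < D) (hK : finrank ℚ K = 2) {x : K}
    (hx : x ^ 2 = (D : K)) :
    IsDedekindDomain (QA R m) ∧ Nonempty (NumberField.RingOfIntegers K ≃+* QA R m) := by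
  have hns := not_sq_of_squarefree hsf hD1
  have hxr : ∀ p q : ℤ, (p : K) + (q : K) * (((m : K) + x) / 2) = 0 → p = 0 ∧ q = 0 := by
    intro p q h
    have h2 : (2 : K) ≠ 0 := by norm_num
    by_cases hq : q = 0
    · subst hq
      simp at h
      exact ⟨h, rfl⟩
    · exfalso
      apply hns
      refine ⟨-(2 * p + q * m) / q, ?_⟩
      have hq' : (q : K) ≠ 0 := by exact_mod_cast hq
      have hxe : x = ((-(2 * p + q * m) / q : ℚ) : K) := by
        push_cast
        rw [eq_div_iff hq']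
        field_simp at h
        linear_combination h
      have h3 : (((-(2 * p + q * m) / q) ^ 2 : ℚ) : K) = ((D : ℚ) : K) := by
        push_cast
        rw [hxe] at hx
        push_cast at hx
        exact hx
      exact_mod_cast h3
  letI : Algebra (QA R m) K := (emb hDm hx).toRingHom.toAlgebra
  have hmap : ∀ z : QA R m, algebraMap (QA R m) K z =
      (z.re : K) + (z.im : K) * (((m : K) + x) / 2) := fun z => emb_apply hDm hx z
  have hinj : Function.Injective (algebraMap (QA R m) K) := by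
    intro z w hzw
    rw [hmap, hmap] at hzw
    have := hxr (z.re - w.re) (z.im - w.im) (by push_cast; linear_combination hzw)
    ext
    · linarith [this.1]
    · linarith [this.2]
  haveI : IsIntegralClosure (QA R m) ℤ K := by
    refine ⟨hinj, ?_⟩
    intro y
    constructor
    · intro hy
      obtain ⟨u, w, h⟩ := integral_coords hm hDm hsf hD1 hK hx hy
      exact ⟨⟨u, w⟩, by rw [hmap, h]⟩
    · rintro ⟨z, rfl⟩
      have : IsIntegral ℤ z := by
        refine ⟨Polynomial.X ^ 2 - Polynomial.C (QuadraticAlgebra.trace z) * Polynomial.X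
          + Polynomial.C (QuadraticAlgebra.norm z), ?_, ?_⟩
        · monicity!
        · rw [← Polynomial.aeval_def]
          simp only [map_add, map_sub, map_pow, map_mul, Polynomial.aeval_X, Polynomial.aeval_C]
          have := QuadraticAlgebra.sq_sub_trace_smul_add_norm_eq_zero z
          simpa [Algebra.smul_def] using this
      exact this.map (emb hDm hx)
  haveI : IsScalarTower ℤ (QA R m) K := IsScalarTower.of_algebraMap_eq (fun n => by simp)
  haveI : IsDomain (QA R m) := Function.Injective.isDomain (algebraMap (QA R m) K) hinj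
  have e : NumberField.RingOfIntegers K ≃ₐ[ℤ] QA R m :=
    IsIntegralClosure.equiv ℤ (NumberField.RingOfIntegers K) K (QA R m)
  exact ⟨IsIntegralClosure.isDedekindDomain ℤ ℚ K (QA R m), ⟨e.toRingEquiv⟩⟩

/-- a group of order two -/
theorem mul_eq_one_of_card {G : Type*} [Group G] (h : Nat.card G = 2) (a b : G) (ha : a ≠ 1)
    (hb : b ≠ 1) : a * b = 1 := by
  obtain ⟨y, hy, huniq⟩ := (Nat.card_eq_two_iff' (1 : G)).1 h
  have h1 : a = y := huniq a ha
  have h2 : b = y := huniq b hb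
  by_contra h3
  have h4 : a * b = y := huniq _ h3
  rw [h1, h2] at h4
  exact hy (mul_eq_left.1 h4)

theorem transport {A B : Type*} [CommRing A] [CommRing B] (e : A ≃+* B)
    (h1 : ∃ I : Ideal A, I ≠ ⊥ ∧ ¬ I.IsPrincipal)
    (h2 : ∀ I J : Ideal A, I ≠ ⊥ → J ≠ ⊥ → ¬ I.IsPrincipal → ¬ J.IsPrincipal →
      (I * J).IsPrincipal) :
    (∃ I : Ideal B, I ≠ ⊥ ∧ ¬ I.IsPrincipal) ∧
    ∀ I J : Ideal B, I ≠ ⊥ → J ≠ ⊥ → ¬ I.IsPrincipal → ¬ J.IsPrincipal → (I * J).IsPrincipal := by
  have back : ∀ I : Ideal B, (I.map (e.symm : B →+* A)).map (e : A →+* B) = I := fun I =>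
    Ideal.map_of_equiv e.symm
  have np : ∀ I : Ideal B, I ≠ ⊥ → ¬ I.IsPrincipal → I.map (e.symm : B →+* A) ≠ ⊥ ∧
      ¬ (I.map (e.symm : B →+* A)).IsPrincipal := by
    intro I h0 hI
    refine ⟨fun h => h0 ?_, fun h => hI ?_⟩
    · exact (Ideal.map_eq_bot_iff_of_injective (f := (e.symm : B →+* A)) e.symm.injective).1 h
    · rw [← back I]
      exact h.map_ringHom (e : A →+* B)
  refine ⟨?_, ?_⟩
  · obtain ⟨I, h0, hI⟩ := h1
    refine ⟨I.map (e : A →+* B), fun h => h0 ?_, fun h => hI ?_⟩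
    · exact (Ideal.map_eq_bot_iff_of_injective (f := (e : A →+* B)) e.injective).1 h
    · rw [← Ideal.map_of_equiv (I := I) e]
      exact h.map_ringHom (e.symm : B →+* A)
  · intro I J hI0 hJ0 hI hJ
    obtain ⟨a1, a2⟩ := np I hI0 hI
    obtain ⟨b1, b2⟩ := np J hJ0 hJ
    have h := h2 _ _ a1 b1 a2 b2
    rw [← back (I * J), Ideal.map_mul]
    exact h.map_ringHom (e : A →+* B)

theorem g0 : Pool.Agent.N367.LE.S_G0 := by
  intro n D hn hD hsf K _ _ hK hx hcl
  obtain ⟨x, hx⟩ := hx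
  have hm : (n : ℤ) % 2 = 1 := by omega
  have hDm : (D : ℤ) = (n : ℤ) ^ 2 + 4 * 1 := by rw [hD]; push_cast; ring
  have hsf' : Squarefree (D : ℤ) := Int.squarefree_natCast.mpr hsf
  have hD1 : (1 : ℤ) < D := by rw [hDm]; nlinarith
  obtain ⟨hded, ⟨e⟩⟩ := order_equiv (K := K) (R := 1) hm hDm hsf' hD1 hK (x := x)
    (by rw [hx]; push_cast; rfl)
  have hcard : Nat.card (ClassGroup (NumberField.RingOfIntegers K)) = 2 := by
    rw [Nat.card_eq_fintype_card]
    exact hcl
  obtain ⟨h1, h2⟩ := transport e (by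
    obtain ⟨y, hy, -⟩ := (Nat.card_eq_two_iff' (1 : ClassGroup (NumberField.RingOfIntegers K))).1
      hcard
    obtain ⟨⟨I, hI⟩, rfl⟩ := ClassGroup.mk0_surjective y
    exact ⟨I, nonZeroDivisors.ne_zero hI, fun h => hy ((ClassGroup.mk0_eq_one_iff hI).2 h)⟩) (by
    intro I J hI0 hJ0 hI hJ
    have hI1 := mem_nonZeroDivisors_iff_ne_zero.2 hI0
    have hJ1 := mem_nonZeroDivisors_iff_ne_zero.2 hJ0
    have h := mul_eq_one_of_card hcard (ClassGroup.mk0 ⟨I, hI1⟩) (ClassGroup.mk0 ⟨J, hJ1⟩)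
      (fun h => hI ((ClassGroup.mk0_eq_one_iff hI1).1 h))
      (fun h => hJ ((ClassGroup.mk0_eq_one_iff hJ1).1 h))
    rw [← map_mul] at h
    exact (ClassGroup.mk0_eq_one_iff (mul_mem hI1 hJ1)).1 h)
  exact ⟨hded, h1, h2⟩

end Pool.Agent.N340.LEG0
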