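import Pool.Agent.N340.NT.Glown

/-!
# Project NT (helper906), GLOWN in the form of `N906/NT/Stm.lean` (helper340)
-/

set_option autoImplicit false

namespace Pool.Agent.N340.NT.GLOWN

/-- GLOWN -/
theorem glown : Pool.Agent.N906.NT.S_GLOWN := by
  intro n Δ r t ε hΔ hε hε3
  obtain ⟨u₀, h1, h2, h3⟩ := Pool.Agent.N340.NT.glown n Δ r t ε hΔ hε hε3
  exact ⟨u₀, h1, h2, h3⟩

end Pool.Agent.N340.NT.GLOWN
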