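import Pool.Agent.N906.QP.Stm
import Pool.Agent.N170.KG_FING

/-!
# QP/FINQ: the final theorem for `q` points (helper340)

Port of `Pool/Agent/N170/KG_FING.lean`. `ncl_bounds` and `lim2` are also useful for FINJ.
-/

set_option autoImplicit false
set_option linter.unusedSectionVars false

namespace Pool.Agent.N340.QP

open NumberField IsDedekindDomain Finset Filter Topology Module
open Pool.Agent.H691R3 Pool.Agent.W223.AK Pool.Agent.N906.KG
open Pool.Agent.N906.NT (Gs Gs_pos Gs_tendsto squeeze)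
open Pool.Agent.N170.KG (pr al_pr rep_eq_of rep_inf ht_rep of_rep off_of pt pt_rep pt_inj fin_pos lv_eq
  pts pts_finite exp_hh ratio)

section points

variable {K : Type} [Field K] [NumberField K] {q : ℕ}

theorem tr_eq {P : Fin q → Idl K} (h : ∀ l l', l ≠ l' → Cop (P l) (P l')) :
    tr P = ∑ l, rl (P l) := by
  classical
  unfold tr sp rl
  rw [sum_biUnion]
  intro l _ l' _ hl
  rw [Function.onFun, Finset.disjoint_left]
  intro v hv hv'
  rw [Finsupp.mem_support_iff] at hv hv'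
  rcases h l l' hl v with h1 | h1
  · exact hv h1
  · exact hv' h1

/-- the counting function of one point and the radical -/
theorem ncl_bounds {α : Fin q → Fin 2 → K} (hα : ∀ i, α i ≠ 0) {T : Set (Pr K)}
    {S : Finset (Pr K)} (hTS : ∀ v ∈ T, v ∈ S)
    {P : Projectivization K (Fin 2 → K)} (hP : P.rep 1 ≠ 0) (hoP : Off1 α P) {A : Fin q → Idl K}
    (hA : IsP S (pr α) (P.rep 0 / P.rep 1) A) (l : Fin q) :
    rl (A l) ≤ finrank ℚ K * ncl T (α l) P ∧
      finrank ℚ K * ncl T (α l) P ≤ rl (A l) + ∑ v ∈ S, Real.log (Nv v) := by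
  classical
  have hd : (0 : ℝ) < finrank ℚ K := fin_pos
  set m : Pr K → ℝ := fun v => ∑ᶠ (_ : v ∉ T), min (lv v (α l) P)
    (Real.log (Ideal.absNorm v.asIdeal : ℝ) / (finrank ℚ K : ℝ)) with hm
  have hmd : ∀ v, finrank ℚ K * m v = if v ∉ T then
      min (lam (Sum.inr v : Pl K) (aff (P.rep 0 / P.rep 1)) (pr α l)) (Real.log (Nv v)) else 0 := by
    intro v
    have e1 : m v = if v ∉ T then min (lv v (α l) P)
        (Real.log (Ideal.absNorm v.asIdeal : ℝ) / (finrank ℚ K : ℝ)) else 0 := finsum_eq_if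
    rw [e1]
    split_ifs with h
    · rw [mul_zero]
    · rw [mul_min_of_nonneg _ _ hd.le, mul_div_cancel₀ _ hd.ne', mul_comm, lv_eq v _ hP]
      rfl
  have hout : ∀ v, v ∉ S → finrank ℚ K * m v =
      if v ∈ (A l).support then Real.log (Nv v) else 0 := by
    intro v hv
    rw [hmd, if_pos (fun h => hv (hTS v h)), hA.2 l v hv]
    have hl := log_Nv_pos v
    split_ifs with h
    · have h1 : 1 ≤ A l v := Nat.one_le_iff_ne_zero.2 (Finsupp.mem_support_iff.1 h)
      have h2 : (1 : ℝ) ≤ (A l v : ℝ) := by exact_mod_cast h1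
      exact min_eq_right (by nlinarith)
    · rw [Finsupp.notMem_support_iff.1 h, Nat.cast_zero, zero_mul]
      exact min_eq_left hl.le
  have hin : ∀ v, 0 ≤ finrank ℚ K * m v ∧ finrank ℚ K * m v ≤ Real.log (Nv v) := by
    intro v
    rw [hmd]
    split_ifs with h
    · exact ⟨le_refl _, (log_Nv_pos v).le⟩
    · refine ⟨le_min ?_ (log_Nv_pos v).le, min_le_right _ _⟩
      refine lamF_nonneg v (aff_ne_zero _) (Pool.Agent.R365.QP.pr_ne (hα l)) ?_
      have := of_rep hP hoP l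
      show P.rep 0 / P.rep 1 * α l 1 - 1 * α l 0 ≠ 0
      rw [one_mul]
      exact this
  have hdis : Disjoint (A l).support S := by
    rw [Finset.disjoint_left]
    intro v hv hvS
    exact Finsupp.mem_support_iff.1 hv (hA.1 l v hvS)
  have hsupp : Function.support m ⊆ (((A l).support ∪ S : Finset (Pr K)) : Set (Pr K)) := by
    intro v hv
    rw [coe_union]
    by_contra hcon
    rw [Set.mem_union, not_or] at hcon
    have h1 := hout v hcon.2
    rw [if_neg (fun h => hcon.1 (mem_coe.2 h))] at h1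
    exact hv ((mul_eq_zero.1 h1).resolve_left hd.ne')
  have hsum : (finrank ℚ K : ℝ) * ncl T (α l) P = rl (A l) + ∑ v ∈ S, finrank ℚ K * m v := by
    have h1 : ncl T (α l) P = ∑ v ∈ (A l).support ∪ S, m v :=
      finsum_eq_sum_of_support_subset _ hsupp
    rw [h1, mul_sum, sum_union hdis]
    congr 1
    unfold rl
    refine sum_congr rfl fun v hv => ?_
    rw [hout v (Finset.disjoint_left.1 hdis hv), if_pos hv]
  rw [hsum]
  constructor
  · have : 0 ≤ ∑ v ∈ S, finrank ℚ K * m v := sum_nonneg fun v _ => (hin v).1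
    linarith
  · have : ∑ v ∈ S, finrank ℚ K * m v ≤ ∑ v ∈ S, Real.log (Nv v) :=
      sum_le_sum fun v _ => (hin v).2
    linarith

lemma QV_sub {T : Set (Pr K)} {α : Fin q → Fin 2 → K} {κ c L : ℝ} :
    QV T α κ c (Real.exp L) ⊆ pts K (finrank ℚ K * L) := by
  rintro P ⟨-, h1, -⟩
  exact exp_hh.1 h1

lemma QV_finite (T : Set (Pr K)) (α : Fin q → Fin 2 → K) (κ c B : ℝ) :
    (QV T α κ c B).Finite := by
  rcases le_or_gt B 0 with hB | hB
  · refine Set.Finite.subset Set.finite_empty ?_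
    rintro P ⟨-, h1, -⟩
    exact absurd (Real.exp_pos (hh P)) (not_lt.2 (h1.trans hB))
  · rw [← Real.exp_log hB]
    exact (pts_finite K _).subset QV_sub

/-- the set of primes -/
lemma good_set (h1 : S_BASQ K) (hq : 1 ≤ q) {T : Set (Pr K)} (hT : T.Finite)
    {α : Fin q → Fin 2 → K} (hA : Al (pr α)) :
    ∃ S : Finset (Pr K), Gd S (pr α) ∧ ∀ v ∈ T, v ∈ S := by
  classical
  obtain ⟨⟨S₁, hS₁⟩, -⟩ := h1 q (pr α) hq hA
  refine ⟨S₁ ∪ hT.toFinset, hS₁ _ subset_union_left, fun v hv => ?_⟩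
  exact mem_union_right _ ((Set.Finite.mem_toFinset hT).2 hv)

theorem upper {κ₁ : ℝ} (h1 : S_BASQ K) (h2 : S_UPQ K q κ₁) (hq : 1 ≤ q) {T : Set (Pr K)}
    (hT : T.Finite) {α : Fin q → Fin 2 → K} {κ : ℝ} (c : ℝ)
    (hα0 : ∀ i, α i ≠ 0) (hα : ∀ i j, i ≠ j → α i 0 * α j 1 - α i 1 * α j 0 ≠ 0)
    (hκ0 : 0 < κ) (hκ1 : κ < κ₁) {ε : ℝ} (hε : 0 < ε) :
    ∃ X₀ : ℝ, 1 < X₀ ∧ ∀ L : ℝ, X₀ ≤ (finrank ℚ K : ℝ) * L →
      ((QV T α κ c (Real.exp L)).ncard : ℝ) ≤
        Real.exp ((2 - κ) * (finrank ℚ K * L) +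
          (1 + ε) * √(8 * q * κ * (finrank ℚ K * L) / Real.log (finrank ℚ K * L))) + 1 := by
  classical
  have hd : (0 : ℝ) < finrank ℚ K := fin_pos
  have hA := al_pr hα0 hα
  obtain ⟨S, hG, hTS⟩ := good_set h1 hq hT hA
  obtain ⟨-, hA2⟩ := h1 q (pr α) hq hA
  obtain ⟨C₁, -, hA3⟩ := hA2 _ hG
  obtain ⟨X₀, hX₀, hup⟩ := h2 (pr α) S κ ε (finrank ℚ K * |c|) hA hG hκ0 hκ1 hε (by positivity)
  refine ⟨X₀, hX₀, fun L hL => ?_⟩
  set X : ℝ := finrank ℚ K * L with hX
  have hfin := QV_finite T α κ c (Real.exp L)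
  obtain ⟨F, hF⟩ : ∃ F : Finset (Projectivization K (Fin 2 → K)), F = hfin.toFinset := ⟨_, rfl⟩
  have hFm : ∀ P, P ∈ F ↔ P ∈ QV T α κ c (Real.exp L) := fun P => by
    rw [hF, Set.Finite.mem_toFinset]
  have hcard : (QV T α κ c (Real.exp L)).ncard = F.card := by
    rw [hF, Set.ncard_eq_toFinset_card _ hfin]
  rw [hcard]
  have hsplit : F.card ≤ (F.filter fun P => P.rep 1 ≠ 0).card + 1 := by
    have h := Finset.card_filter_add_card_filter_not (s := F) (fun P => P.rep 1 ≠ 0)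
    have h' : (F.filter fun P => ¬ P.rep 1 ≠ 0).card ≤ 1 := by
      rw [Finset.card_le_one]
      intro P hP P' hP'
      exact rep_inf (not_not.1 (mem_filter.1 hP).2) (not_not.1 (mem_filter.1 hP').2)
    omega
  have hc1 : (((F.filter fun P => P.rep 1 ≠ 0).card : ℕ) : ℝ) ≤ Real.exp ((2 - κ) * X +
      (1 + ε) * √(8 * q * κ * X / Real.log X)) := by
    rw [← card_image_of_injOn (s := F.filter fun P => P.rep 1 ≠ 0)
      (f := fun P => P.rep 0 / P.rep 1)]
    · refine hup X _ hL ?_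
      intro x hx
      obtain ⟨P, hP, rfl⟩ := mem_image.1 hx
      obtain ⟨g0, g1⟩ := mem_filter.1 hP
      have k1 := QV_sub ((hFm P).1 g0)
      obtain ⟨m1, -, m3⟩ := (hFm P).1 g0
      have o1 := of_rep g1 m1
      obtain ⟨A, hPA⟩ := (hA3 _ o1).1
      have hcop := ((hA3 _ o1).2.1 A hPA).1
      refine ⟨o1, ?_, A, hPA, ?_⟩
      · rw [← ht_rep]
        exact k1
      · rw [tr_eq hcop, ← ht_rep]
        have m4 := mul_le_mul_of_nonneg_left m3 hd.le
        have m5 : ∑ l, rl (A l) ≤ finrank ℚ K * ∑ l, ncl T (α l) P := by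
          rw [mul_sum]
          exact sum_le_sum fun l _ => (ncl_bounds hα0 hTS g1 m1 hPA l).1
        refine m5.trans (m4.trans ?_)
        unfold hh
        have e1 : (finrank ℚ K : ℝ) * (((q : ℝ) - κ) * (Height.logHeight P.rep / finrank ℚ K) +
            c) = ((q : ℝ) - κ) * Height.logHeight P.rep + finrank ℚ K * c := by
          field_simp
        rw [e1]
        have := mul_le_mul_of_nonneg_left (le_abs_self c) hd.le
        linarith
    · intro P hP P' hP' e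
      exact rep_eq_of (mem_filter.1 (mem_coe.1 hP)).2 (mem_filter.1 (mem_coe.1 hP')).2 e
  have hs : (F.card : ℝ) ≤ (((F.filter fun P => P.rep 1 ≠ 0).card : ℕ) : ℝ) + 1 := by
    exact_mod_cast hsplit
  linarith

theorem sqrt_sum {q : ℕ} (hq : 1 ≤ q) (κ Y : ℝ) :
    ∑ _l : Fin q, √(8 * (κ / q) * Y) = √(8 * q * κ * Y) := by
  have hq0 : (0 : ℝ) < q := by exact_mod_cast hq
  rw [sum_const, card_univ, Fintype.card_fin, nsmul_eq_mul]
  have e1 : 8 * (q : ℝ) * κ * Y = (q : ℝ) ^ 2 * (8 * (κ / q) * Y) := by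
    field_simp
  rw [e1, Real.sqrt_mul (sq_nonneg (q : ℝ)) _, Real.sqrt_sq hq0.le]

theorem lower (h1 : S_BASQ K) (h3 : S_LOJ K) (hq : 1 ≤ q) {T : Set (Pr K)}
    (hT : T.Finite) {α : Fin q → Fin 2 → K} {κ : ℝ} (c : ℝ)
    (hα0 : ∀ i, α i ≠ 0) (hα : ∀ i j, i ≠ j → α i 0 * α j 1 - α i 1 * α j 0 ≠ 0)
    (hκ0 : 0 < κ) (hκ1 : κ < 1) {ε : ℝ} (hε : 0 < ε) (hε1 : ε < 1) :
    ∃ X₀ : ℝ, 1 < X₀ ∧ ∀ L : ℝ, X₀ ≤ (finrank ℚ K : ℝ) * L →
      Real.exp ((2 - κ) * (finrank ℚ K * L) +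
          (1 - ε) * √(8 * q * κ * (finrank ℚ K * L) / Real.log (finrank ℚ K * L))) ≤
        ((QV T α κ c (Real.exp L)).ncard : ℝ) := by
  classical
  have hd : (0 : ℝ) < finrank ℚ K := fin_pos
  have hq0 : (0 : ℝ) < q := by exact_mod_cast hq
  have hA := al_pr hα0 hα
  obtain ⟨S, hG, hTS⟩ := good_set h1 hq hT hA
  have hlog : 0 ≤ ∑ v ∈ S, Real.log (Nv v) := sum_nonneg fun v _ => (log_Nv_pos v).le
  have hsum : ∑ _l : Fin q, κ / (q : ℝ) = κ := by
    rw [sum_const, card_univ, Fintype.card_fin, nsmul_eq_mul, mul_div_cancel₀ _ hq0.ne']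
  obtain ⟨X₀, hX₀, hlo⟩ := h3 q (pr α) S (fun _ => κ / q) ε
    (∑ v ∈ S, Real.log (Nv v) + finrank ℚ K * |c|) hq hA hG (fun _ => by positivity)
    (by rw [hsum]; exact hκ0) (by rw [hsum]; exact hκ1) hε hε1 (add_nonneg hlog (by positivity))
  refine ⟨X₀, hX₀, fun L hL => ?_⟩
  set X : ℝ := finrank ℚ K * L with hX
  obtain ⟨F, hF, hcard⟩ := hlo X hL
  have e0 : ∑ _l : Fin q, √(8 * (κ / q) * X / Real.log X) = √(8 * q * κ * X / Real.log X) := by
    rw [show (8 * q * κ * X / Real.log X) = 8 * q * κ * (X / Real.log X) from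
      mul_div_assoc _ _ _, ← sqrt_sum hq]
    exact sum_congr rfl fun _ _ => by rw [mul_div_assoc]
  rw [hsum, e0] at hcard
  refine hcard.trans ?_
  have hsub : ((F.image pt : Finset _) : Set _) ⊆ QV T α κ c (Real.exp L) := by
    intro P hP
    obtain ⟨x, hx, rfl⟩ := mem_image.1 (mem_coe.1 hP)
    obtain ⟨o1, k1, -, A, hPA, htr⟩ := hF x hx
    obtain ⟨n1, e1⟩ := pt_rep x
    have l1 : Height.logHeight (pt x).rep = hr (aff x) := by rw [ht_rep, e1]
    have f1 : Off1 α (pt x) := off_of n1 (by rw [e1]; exact o1)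
    refine ⟨f1, exp_hh.2 (by rw [l1]; exact k1), ?_⟩
    have h5 : ∀ l, finrank ℚ K * ncl T (α l) (pt x) ≤
        (1 - κ / q) * hr (aff x) - finrank ℚ K * |c| := by
      intro l
      have h6 := (ncl_bounds (S := S) hα0 hTS n1 f1 (by rw [e1]; exact hPA) l).2
      have h7 := htr l
      linarith
    have h6 : (finrank ℚ K : ℝ) * ∑ l, ncl T (α l) (pt x) ≤
        finrank ℚ K * (((q : ℝ) - κ) * hh (pt x) + c) := by
      unfold hh
      rw [l1, mul_sum]
      refine (sum_le_sum fun l _ => h5 l).trans ?_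
      rw [sum_const, card_univ, Fintype.card_fin, nsmul_eq_mul]
      have e3 : (finrank ℚ K : ℝ) * (((q : ℝ) - κ) * (hr (aff x) / finrank ℚ K) + c) =
          ((q : ℝ) - κ) * hr (aff x) + finrank ℚ K * c := by
        field_simp
      have e4 : (q : ℝ) * ((1 - κ / q) * hr (aff x) - finrank ℚ K * |c|) =
          ((q : ℝ) - κ) * hr (aff x) - q * (finrank ℚ K * |c|) := by
        field_simp
      rw [e3, e4]
      have h8 := mul_le_mul_of_nonneg_left (neg_abs_le c) hd.le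
      have h9 : (1 : ℝ) * (finrank ℚ K * |c|) ≤ q * (finrank ℚ K * |c|) :=
        mul_le_mul_of_nonneg_right (by exact_mod_cast hq) (by positivity)
      linarith
    exact le_of_mul_le_mul_left h6 hd
  have h5 := Set.ncard_le_ncard hsub (QV_finite T α κ c (Real.exp L))
  rw [Set.ncard_coe_finset, card_image_of_injective _ pt_inj] at h5
  exact_mod_cast h5

end points

/-! ### The limit -/

theorem lim2 {e d c : ℝ} (hd : 0 < d) (hc : 0 ≤ c) (he : 0 < e) (N : ℝ → ℝ)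
    (hU : ∀ ε : ℝ, 0 < ε → ∃ X₀ : ℝ, ∀ L : ℝ, X₀ ≤ d * L →
      N L ≤ Real.exp (e * L + (1 + ε) * (c * √(d * L / Real.log (d * L)))) + 1)
    (hL : ∀ ε : ℝ, 0 < ε → ε < 1 → ∃ X₀ : ℝ, ∀ L : ℝ, X₀ ≤ d * L →
      Real.exp (e * L + (1 - ε) * (c * √(d * L / Real.log (d * L)))) ≤ N L) :
    Tendsto (fun L : ℝ => (Real.log (N L) - e * L) / Gs (1 / 2) L) atTop (𝓝 (c * √d)) := by
  have hρ : (0 : ℝ) < 1 / 2 := by norm_num
  have hA0 : 0 < √d := Real.sqrt_pos.2 hd
  have hrat := ratio (k := 1) one_pos hd hρ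
  rw [one_mul, ← Real.sqrt_eq_rpow] at hrat
  have hGt := Gs_tendsto hρ
  have hsec : ∀ η : ℝ, 0 < η → ∀ᶠ L : ℝ in atTop, 1 < L ∧ 0 < Gs (1 / 2) L ∧
      √(d * L / Real.log (d * L)) ≤ (√d + η) * Gs (1 / 2) L ∧
      (√d - η) * Gs (1 / 2) L ≤ √(d * L / Real.log (d * L)) := by
    intro η hη
    have g1 := hrat.eventually (gt_mem_nhds (show √d < √d + η by linarith))
    have g2 := hrat.eventually (lt_mem_nhds (show √d - η < √d by linarith))
    filter_upwards [g1, g2, eventually_gt_atTop (1 : ℝ)] with L k1 k2 k3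
    have hG := Gs_pos (ρ := 1 / 2) k3
    rw [one_mul, ← Real.sqrt_eq_rpow] at k1 k2
    rw [div_lt_iff₀ hG] at k1
    rw [lt_div_iff₀ hG] at k2
    exact ⟨k3, hG, k1.le, k2.le⟩
  have hX : ∀ X₀ : ℝ, ∀ᶠ L : ℝ in atTop, X₀ ≤ d * L := fun X₀ =>
    (tendsto_id.const_mul_atTop hd).eventually_ge_atTop X₀
  refine squeeze (e := e) (c := c * √d) hρ N ?_ ?_
  · intro ε hε
    obtain ⟨η, hη0, hη⟩ : ∃ η : ℝ, 0 < η ∧ (1 + η) * c * (√d + η) < c * √d + ε / 2 := by
      have hc : Tendsto (fun η : ℝ => (1 + η) * c * (√d + η)) (𝓝[>] 0)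
          (𝓝 ((1 + 0) * c * (√d + 0))) := by
        refine tendsto_nhdsWithin_of_tendsto_nhds ?_
        exact (((tendsto_id.const_add 1).mul_const c).mul (tendsto_id.const_add (√d)))
      rw [add_zero, add_zero, one_mul] at hc
      obtain ⟨η, g1, g2⟩ := ((hc.eventually (gt_mem_nhds
        (show c * √d < c * √d + ε / 2 by linarith))).and self_mem_nhdsWithin).exists
      exact ⟨η, g2, g1⟩
    obtain ⟨X₀, h⟩ := hU η hη0
    filter_upwards [hsec η hη0, hX X₀,
      hGt.eventually_ge_atTop (2 * Real.log 2 / ε)] with L ⟨k1, k2, k3, _⟩ k4 k6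
    have h6 := h L k4
    have h7 : (1 + η) * (c * √(d * L / Real.log (d * L))) ≤ (c * √d + ε / 2) * Gs (1 / 2) L := by
      calc (1 + η) * (c * √(d * L / Real.log (d * L))) =
          (1 + η) * c * √(d * L / Real.log (d * L)) := by ring
        _ ≤ (1 + η) * c * ((√d + η) * Gs (1 / 2) L) :=
            mul_le_mul_of_nonneg_left k3 (by positivity)
        _ = (1 + η) * c * (√d + η) * Gs (1 / 2) L := by ring
        _ ≤ _ := mul_le_mul_of_nonneg_right hη.le k2.le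
    have h8 : 0 ≤ (c * √d + ε / 2) * Gs (1 / 2) L := by positivity
    have h9 : (1 : ℝ) ≤ Real.exp (e * L + (c * √d + ε / 2) * Gs (1 / 2) L) := by
      refine Real.one_le_exp ?_
      have : 0 < e * L := by positivity
      linarith
    have h10 : Real.exp (e * L + (1 + η) * (c * √(d * L / Real.log (d * L)))) ≤
        Real.exp (e * L + (c * √d + ε / 2) * Gs (1 / 2) L) :=
      Real.exp_le_exp.2 (by linarith)
    have h11 : N L ≤ Real.exp (e * L + (c * √d + ε / 2) * Gs (1 / 2) L) * 2 := by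
      linarith
    refine h11.trans ?_
    rw [Pool.Agent.N170.KG.exp_mul_two]
    refine Real.exp_le_exp.2 ?_
    have h13 : Real.log 2 ≤ ε / 2 * Gs (1 / 2) L := by
      rw [div_le_iff₀ hε] at k6
      linarith
    nlinarith
  · intro ε hε
    obtain ⟨η, hη0, hη1, hη⟩ : ∃ η : ℝ, 0 < η ∧ η < 1 ∧ c * √d - ε < (1 - η) * c * (√d - η) := by
      have hc : Tendsto (fun η : ℝ => (1 - η) * c * (√d - η)) (𝓝[>] 0)
          (𝓝 ((1 - 0) * c * (√d - 0))) := by
        refine tendsto_nhdsWithin_of_tendsto_nhds ?_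
        exact (((tendsto_id.const_sub 1).mul_const c).mul (tendsto_id.const_sub (√d)))
      rw [sub_zero, sub_zero, one_mul] at hc
      have h1 : ∀ᶠ η : ℝ in 𝓝[>] 0, η < 1 :=
        (tendsto_nhdsWithin_of_tendsto_nhds tendsto_id).eventually_lt_const one_pos
      obtain ⟨η, ⟨g1, g3⟩, g2⟩ := ((hc.eventually (lt_mem_nhds
        (show c * √d - ε < c * √d by linarith))).and h1 |>.and self_mem_nhdsWithin).exists
      exact ⟨η, g2, g3, g1⟩
    obtain ⟨X₀, h⟩ := hL η hη0 hη1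
    filter_upwards [hsec η hη0, hX X₀] with L ⟨k1, k2, _, k3⟩ k4
    refine le_trans (Real.exp_le_exp.2 ?_) (h L k4)
    have hn : 0 ≤ (1 - η) * c := mul_nonneg (by linarith) hc
    have h7 : (c * √d - ε) * Gs (1 / 2) L ≤ (1 - η) * (c * √(d * L / Real.log (d * L))) := by
      calc (c * √d - ε) * Gs (1 / 2) L ≤ (1 - η) * c * (√d - η) * Gs (1 / 2) L :=
            mul_le_mul_of_nonneg_right hη.le k2.le
        _ = (1 - η) * c * ((√d - η) * Gs (1 / 2) L) := by ring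
        _ ≤ (1 - η) * c * √(d * L / Real.log (d * L)) := mul_le_mul_of_nonneg_left k3 hn
        _ = _ := by ring
    linarith

/-- **FINQ**, the final theorem for `q` points. -/
theorem finq (K : Type) [Field K] [NumberField K] (q : ℕ) (κ₁ : ℝ) (h1 : S_BASQ K)
    (h2 : S_UPQ K q κ₁) (h3 : S_LOJ K) : S_FINQ K q κ₁ := by
  intro T α κ c hT hq hα0 hα hκ0 hκ1 hκ2
  have hq1 : 1 ≤ q := by omega
  have hd : (0 : ℝ) < finrank ℚ K := fin_pos
  have hq0 : (0 : ℝ) < q := by exact_mod_cast hq1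
  refine ⟨fun B => QV_finite T α κ c B, ?_⟩
  have e0 : ∀ X : ℝ, √(8 * q * κ * X / Real.log X) = √(8 * q * κ) * √(X / Real.log X) := by
    intro X
    rw [mul_div_assoc, Real.sqrt_mul (by positivity)]
  have h := lim2 (e := (2 - κ) * finrank ℚ K) (d := finrank ℚ K) (c := √(8 * q * κ)) hd
    (Real.sqrt_nonneg _) (mul_pos (by linarith) hd)
    (fun L => ((QV T α κ c (Real.exp L)).ncard : ℝ))
    (fun ε hε => by
      obtain ⟨X₀, -, h⟩ := upper h1 h2 hq1 hT c hα0 hα hκ0 hκ1 hε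
      refine ⟨X₀, fun L hL => (h L hL).trans (le_of_eq ?_)⟩
      rw [e0, mul_assoc (2 - κ)])
    (fun ε hε hε1 => by
      obtain ⟨X₀, -, h⟩ := lower h1 h3 hq1 hT c hα0 hα hκ0 hκ2 hε hε1
      refine ⟨X₀, fun L hL => (le_of_eq ?_).trans (h L hL)⟩
      rw [e0, mul_assoc (2 - κ)])
  have h5 := h.comp Real.tendsto_log_atTop
  rw [← Real.sqrt_mul (by positivity)] at h5
  refine h5.congr' ?_
  filter_upwards [eventually_gt_atTop (0 : ℝ)] with B hB
  simp only [Function.comp_apply, Gs]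
  rw [Real.exp_log hB, Real.sqrt_eq_rpow]
  congr 2
  ring

end Pool.Agent.N340.QP
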