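import Pool.Agent.N375.RF.Basic

set_option autoImplicit false
set_option linter.unusedSectionVars false

/-! Project RF: the deterministic part on forests. -/

namespace Pool.Agent.N340.RFDetRF

open Finset Classical
open Pool.Agent.N375.RF

variable {V : Type} [Fintype V]

theorem TIso.refl' (p : V → V) (S : Finset V) (v : V) : TIso p S v p S v :=
  ⟨Equiv.refl V, rfl, fun _ => Iff.rfl, fun _ _ _ => rfl⟩

theorem TIso.symm' {p q : V → V} {S S' : Finset V} {v v' : V} (h : TIso p S v q S' v') :
    TIso q S' v' p S v := by
  obtain ⟨σ, h1, h2, h3⟩ := h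
  refine ⟨σ.symm, ?_, ?_, ?_⟩
  · rw [← h1, Equiv.symm_apply_apply]
  · intro x
    rw [← h2, Equiv.apply_symm_apply]
  · intro x hx hne
    have h4 : σ.symm x ∈ S := by rw [← h2, Equiv.apply_symm_apply]; exact hx
    have h5 : σ.symm x ≠ v := by
      intro he
      apply hne
      rw [← h1, ← he, Equiv.apply_symm_apply]
    have h6 := h3 _ h4 h5
    rw [Equiv.apply_symm_apply] at h6
    rw [← h6, Equiv.symm_apply_apply]

theorem TIso.trans' {p q r : V → V} {S S' S'' : Finset V} {v v' v'' : V}
    (h : TIso p S v q S' v') (h' : TIso q S' v' r S'' v'') : TIso p S v r S'' v'' := by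
  obtain ⟨σ, h1, h2, h3⟩ := h
  obtain ⟨τ, k1, k2, k3⟩ := h'
  refine ⟨σ.trans τ, ?_, ?_, ?_⟩
  · simp [h1, k1]
  · intro x
    rw [Equiv.trans_apply, k2, h2]
  · intro x hx hne
    rw [Equiv.trans_apply, Equiv.trans_apply, h3 x hx hne]
    apply k3
    · rw [h2]; exact hx
    · intro he
      apply hne
      rw [← h1] at he
      exact σ.injective he

theorem TIso.card {p q : V → V} {S S' : Finset V} {v v' : V} (h : TIso p S v q S' v') :
    S.card = S'.card := by
  obtain ⟨σ, -, h2, -⟩ := h
  have : S.map σ.toEmbedding = S' := by
    ext x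
    rw [mem_map]
    constructor
    · rintro ⟨a, ha, rfl⟩
      exact (h2 a).2 ha
    · intro hx
      exact ⟨σ.symm x, by rw [← h2, Equiv.apply_symm_apply]; exact hx, by simp⟩
  rw [← this, card_map]

theorem TIso.of_eq {p q : V → V} {S : Finset V} {v : V} (h : ∀ x ∈ S, x ≠ v → p x = q x) :
    TIso p S v q S v :=
  ⟨Equiv.refl V, rfl, fun _ => Iff.rfl, fun x hx hne => h x hx hne⟩

/-- the deterministic part on forests -/
theorem detRF : StDetRF := by
  intro V _ C p u z w y σ hp hG hwu hy hσz hσC hσ
  obtain ⟨hu, hz, v, hv, r, hr, huv, hzr, g1, g2, g3, hniso⟩ := hG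
  obtain ⟨q, hq⟩ : ∃ q, q = Function.update p u w := ⟨_, rfl⟩
  rw [← hq] at hy hσ ⊢
  have hqR : IsRF C q := by rw [hq]; exact leaf_move hp hu hwu
  have hqp : ∀ x, x ≠ u → q x = p x := fun x hx => by rw [hq, Function.update_of_ne hx]
  -- the isomorphism of the cut forests
  have hit : ∀ (k : ℕ) (a : V), a ≠ z → p^[k] a ≠ z ∧ σ (p^[k] a) = q^[k] (σ a) := by
    intro k a ha
    induction k with
    | zero => exact ⟨ha, rfl⟩
    | succ k ih =>
      rw [Function.iterate_succ_apply', Function.iterate_succ_apply', hσ _ ih.1, ih.2]
      exact ⟨hz.2 _, rfl⟩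
  have hL : ∀ (x a : V), a ≠ z → (σ a ∈ L q (σ x) ↔ a ∈ L p x) := by
    intro x a ha
    rw [mem_L, mem_L]
    constructor
    · rintro ⟨k, hk⟩
      rw [← (hit k a ha).2] at hk
      exact ⟨k, σ.injective hk⟩
    · rintro ⟨k, hk⟩
      exact ⟨k, by rw [← (hit k a ha).2, hk]⟩
  have hiso : ∀ x, TIso p ((L p x).erase z) x q ((L q (σ x)).erase y) (σ x) := by
    intro x
    refine ⟨σ, rfl, ?_, ?_⟩
    · intro a
      rw [mem_erase, mem_erase]
      constructor
      · rintro ⟨h1, h2⟩
        have h3 : a ≠ z := by
          rintro rfl
          exact h1 hσz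
        exact ⟨h3, (hL x a h3).1 h2⟩
      · rintro ⟨h1, h2⟩
        refine ⟨?_, (hL x a h1).2 h2⟩
        intro h3
        rw [← hσz] at h3
        exact h1 (σ.injective h3)
    · intro a ha _
      exact hσ a (mem_erase.1 ha).1
  have hcnt : ∀ (P Q : V → Prop) (_ : DecidablePred P) (_ : DecidablePred Q),
      (∀ x, Q (σ x) ↔ P x) → (C.filter P).card = (C.filter Q).card := by
    intro P Q _ _ hPQ
    have : (C.filter P).map σ.toEmbedding = C.filter Q := by
      ext x
      rw [mem_map]
      constructor
      · rintro ⟨a, ha, rfl⟩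
        rw [mem_filter] at ha ⊢
        exact ⟨(hσC a).2 ha.1, (hPQ a).2 ha.2⟩
      · intro hx
        rw [mem_filter] at hx
        refine ⟨σ.symm x, ?_, by simp⟩
        rw [mem_filter, ← hσC, ← hPQ, Equiv.apply_symm_apply]
        exact hx
    rw [← this, card_map]
  have hcs : ∀ k : ℕ, (C.filter (fun x => ((L p x).erase z).card = k)).card =
      (C.filter (fun x => ((L q x).erase y).card = k)).card := by
    intro k
    refine hcnt _ _ _ _ fun x => ?_
    rw [(TIso.card (hiso x)).symm]
  have hci : ∀ (p0 : V → V) (S0 : Finset V) (v0 : V),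
      (C.filter (fun x => TIso p0 S0 v0 p ((L p x).erase z) x)).card =
      (C.filter (fun x => TIso p0 S0 v0 q ((L q x).erase y) x)).card := by
    intro p0 S0 v0
    refine hcnt _ _ _ _ fun x => ?_
    constructor
    · intro h
      exact TIso.trans' h (TIso.symm' (hiso x))
    · intro h
      exact TIso.trans' h (hiso x)
  -- the trees
  obtain ⟨vs, hvs, hwvs⟩ := hp.exists_root w
  obtain ⟨ρ, hρ, hyρ⟩ := hqR.exists_root y
  have ez : ∀ x ∈ C, x ≠ r → (L p x).erase z = L p x := fun x hx hxr =>
    erase_eq_of_notMem fun h => hxr (hp.root_unique hx hr h hzr)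
  have ey : ∀ x ∈ C, x ≠ ρ → (L q x).erase y = L q x := fun x hx hxr =>
    erase_eq_of_notMem fun h => hxr (hqR.root_unique hx hρ h hyρ)
  have ezr : ((L p r).erase z).card + 1 = (L p r).card := card_erase_add_one hzr
  have eyr : ((L q ρ).erase y).card + 1 = (L q ρ).card := card_erase_add_one hyρ
  have euv : ((L p v).erase u).card + 1 = (L p v).card := card_erase_add_one huv
  have ht2 : 2 ≤ (L p v).card := IsRF.two_le_of_leaf hv hu huv
  have hsame : ∀ x ∈ C, x ≠ v → x ≠ vs → L q x = L p x := by
    intro x hx h1 h2
    rw [hq]
    exact L_move_same hu hwu hx (fun h => h2 (hp.root_unique hx hvs h hwvs))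
      (fun h => h1 (hp.root_unique hx hv h huv))
  have hvr : v ≠ r := by
    rintro rfl
    exact g2 rfl
  by_cases hcase : vs = v
  · -- case B
    subst hcase
    have hLq : ∀ x ∈ C, L q x = L p x := by
      intro x hx
      by_cases h1 : x = vs
      · subst h1
        rw [hq, L_move_of_mem hu hwu hx hwvs, insert_eq_of_mem huv]
      · exact hsame x hx h1 h1
    have key : TIso p (L p vs) vs q (L p vs) vs := by
      by_contra hcon
      have hSL : C.filter (fun x => TIso p (L p vs) vs p ((L p x).erase z) x) =
          C.filter (fun x => TIso p (L p vs) vs p (L p x) x) := by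
        refine filter_congr fun x hx => ?_
        by_cases hxr : x = r
        · subst hxr
          constructor
          · intro h
            have := TIso.card h
            omega
          · intro h
            have := TIso.card h
            omega
        · rw [ez x hx hxr]
      have hvSL : vs ∈ C.filter (fun x => TIso p (L p vs) vs p (L p x) x) := by
        rw [mem_filter]
        exact ⟨hv, TIso.refl' _ _ _⟩
      have h1 := hci p (L p vs) vs
      rw [hSL] at h1
      have hsub : (C.filter (fun x => TIso p (L p vs) vs q ((L q x).erase y) x)).erase ρ ⊆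
          (C.filter (fun x => TIso p (L p vs) vs p (L p x) x)).erase vs := by
        intro x hx
        rw [mem_erase, mem_filter] at hx ⊢
        obtain ⟨hxρ, hxC, hx3⟩ := hx
        rw [ey x hxC hxρ, hLq x hxC] at hx3
        have hxv : x ≠ vs := by
          rintro rfl
          exact hcon hx3
        refine ⟨hxv, hxC, ?_⟩
        refine TIso.trans' hx3 (TIso.of_eq fun a ha _ => ?_)
        refine hqp a ?_
        rintro rfl
        exact hxv (hp.root_unique hxC hv ha huv)
      have h2 := card_le_card hsub
      rw [card_erase_of_mem hvSL] at h2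
      have hpos : 0 < (C.filter (fun x => TIso p (L p vs) vs p (L p x) x)).card :=
        card_pos.2 ⟨_, hvSL⟩
      have hρm : ρ ∈ C.filter (fun x => TIso p (L p vs) vs q ((L q x).erase y) x) := by
        by_contra hn
        rw [erase_eq_of_notMem hn] at h2
        omega
      have h3 := TIso.card (mem_filter.1 hρm).2
      have h4 : (L p ρ).card = (L p vs).card + 1 := by
        rw [← hLq ρ hρ]
        omega
      have h5 := hcs ((L p vs).card + 1)
      have h6 : C.filter (fun x => (L p x).card = (L p vs).card + 1) ⊆
          C.filter (fun x => ((L p x).erase z).card = (L p vs).card + 1) := by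
        intro x hx
        rw [mem_filter] at hx ⊢
        have hxr : x ≠ r := by
          rintro rfl
          exact g3 hx.2
        rw [ez x hx.1 hxr]
        exact hx
      have h7 : C.filter (fun x => ((L q x).erase y).card = (L p vs).card + 1) ⊆
          (C.filter (fun x => (L p x).card = (L p vs).card + 1)).erase ρ := by
        intro x hx
        rw [mem_filter] at hx
        rw [mem_erase, mem_filter]
        have hxρ : x ≠ ρ := by
          rintro rfl
          omega
        rw [ey x hx.1 hxρ, hLq x hx.1] at hx
        exact ⟨hxρ, hx⟩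
      have h8 := card_le_card h6
      have h9 := card_le_card h7
      have h10 : ρ ∈ C.filter (fun x => (L p x).card = (L p vs).card + 1) := by
        rw [mem_filter]
        exact ⟨hρ, h4⟩
      rw [card_erase_of_mem h10] at h9
      have h11 : 0 < (C.filter (fun x => (L p x).card = (L p vs).card + 1)).card :=
        card_pos.2 ⟨_, h10⟩
      omega
    obtain ⟨σ', k1, k2, k3⟩ := key
    let θ : V ≃ V := Equiv.Perm.ofSubtype
      (Equiv.Perm.subtypePerm (p := fun x => x ∈ L p vs) σ' (fun x => k2 x))
    have hθ1 : ∀ x, x ∈ L p vs → θ x = σ' x := by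
      intro x hx
      simp only [θ]
      rw [Equiv.Perm.ofSubtype_apply_of_mem _ hx]
      rfl
    have hθ2 : ∀ x, x ∉ L p vs → θ x = x := by
      intro x hx
      simp only [θ]
      rw [Equiv.Perm.ofSubtype_apply_of_not_mem _ hx]
    refine ⟨θ, ?_, ?_⟩
    · intro x hx
      by_cases h1 : x = vs
      · subst h1
        rw [hθ1 _ (self_mem_L p x), k1]
      · exact hθ2 x fun h => h1 (hp.root_mem hx h)
    · intro x
      by_cases h1 : x ∈ L p vs
      · by_cases h2 : x = vs
        · subst h2
          rw [hp.fix hv, hθ1 _ h1, k1, hqR.fix hv]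
        · rw [hθ1 _ h1, hθ1 _ ((hp.p_mem hv).2 h1), k3 x h1 h2]
      · have h2 : p x ∉ L p vs := fun h => h1 ((hp.p_mem hv).1 h)
        rw [hθ2 _ h1, hθ2 _ h2, hqp]
        rintro rfl
        exact h1 huv
  · -- case A
    exfalso
    have hLv : L q v = (L p v).erase u := by
      rw [hq]
      exact L_move_of_notMem hu hwu hv fun h => hcase (hp.root_unique hvs hv hwvs h)
    have hLvs : (L q vs).card = (L p vs).card + 1 := by
      rw [hq, L_move_of_mem hu hwu hvs hwvs, card_insert_of_notMem]
      exact fun h => hcase (hp.root_unique hvs hv h huv)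
    have hρv : ρ = v := by
      by_contra hne
      have h1 := hci p ((L p v).erase u) v
      have h2 : C.filter (fun x => TIso p ((L p v).erase u) v p ((L p x).erase z) x) = ∅ := by
        rw [filter_eq_empty_iff]
        intro x hx h3
        by_cases hxr : x = r
        · subst hxr
          have := TIso.card h3
          omega
        · rw [ez x hx hxr] at h3
          exact hniso x hx h3
      rw [h2, card_empty] at h1
      have h3 := card_eq_zero.1 h1.symm
      have h4 : v ∈ C.filter (fun x => TIso p ((L p v).erase u) v q ((L q x).erase y) x) := by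
        rw [mem_filter]
        refine ⟨hv, ?_⟩
        rw [ey v hv (fun h => hne h.symm), hLv]
        refine TIso.of_eq fun a ha _ => (hqp a ?_).symm
        exact (mem_erase.1 ha).1
      rw [h3] at h4
      exact absurd h4 (notMem_empty _)
    subst hρv
    have hcv : ((L q ρ).erase y).card + 2 = (L p ρ).card := by
      rw [hLv] at eyr ⊢
      omega
    have hst : (L p vs).card + 1 = (L p ρ).card := by
      by_contra hne
      have h1 := hcs (L p ρ).card
      have h2 : C.filter (fun x => (L p x).card = (L p ρ).card) ⊆
          C.filter (fun x => ((L p x).erase z).card = (L p ρ).card) := by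
        intro x hx
        rw [mem_filter] at hx ⊢
        have hxr : x ≠ r := by
          rintro rfl
          exact g2 hx.2
        rw [ez x hx.1 hxr]
        exact hx
      have h3 : C.filter (fun x => ((L q x).erase y).card = (L p ρ).card) ⊆
          (C.filter (fun x => (L p x).card = (L p ρ).card)).erase ρ := by
        intro x hx
        rw [mem_filter] at hx
        rw [mem_erase, mem_filter]
        have hxρ : x ≠ ρ := by
          rintro rfl
          omega
        rw [ey x hx.1 hxρ] at hx
        have hxs : x ≠ vs := by
          rintro rfl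
          omega
        rw [hsame x hx.1 hxρ hxs] at hx
        exact ⟨hxρ, hx⟩
      have h4 := card_le_card h2
      have h5 := card_le_card h3
      have h6 : ρ ∈ C.filter (fun x => (L p x).card = (L p ρ).card) := by
        rw [mem_filter]
        exact ⟨hρ, rfl⟩
      rw [card_erase_of_mem h6] at h5
      have h7 : 0 < (C.filter (fun x => (L p x).card = (L p ρ).card)).card :=
        card_pos.2 ⟨_, h6⟩
      omega
    have h1 := hcs (L p vs).card
    have h2 : C.filter (fun x => (L p x).card = (L p vs).card) ⊆
        C.filter (fun x => ((L p x).erase z).card = (L p vs).card) := by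
      intro x hx
      rw [mem_filter] at hx ⊢
      have hxr : x ≠ r := by
        rintro rfl
        omega
      rw [ez x hx.1 hxr]
      exact hx
    have h3 : C.filter (fun x => ((L q x).erase y).card = (L p vs).card) ⊆
        (C.filter (fun x => (L p x).card = (L p vs).card)).erase vs := by
      intro x hx
      rw [mem_filter] at hx
      rw [mem_erase, mem_filter]
      have hxρ : x ≠ ρ := by
        rintro rfl
        omega
      rw [ey x hx.1 hxρ] at hx
      have hxs : x ≠ vs := by
        rintro rfl
        omega
      rw [hsame x hx.1 hxρ hxs] at hx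
      exact ⟨hxs, hx⟩
    have h4 := card_le_card h2
    have h5 := card_le_card h3
    have h6 : vs ∈ C.filter (fun x => (L p x).card = (L p vs).card) := by
      rw [mem_filter]
      exact ⟨hvs, rfl⟩
    rw [card_erase_of_mem h6] at h5
    have h7 : 0 < (C.filter (fun x => (L p x).card = (L p vs).card)).card :=
      card_pos.2 ⟨_, h6⟩
    omega

end Pool.Agent.N340.RFDetRF
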