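import Pool.Agent.N795.ST.Stm
import Pool.Agent.TH268.PD.Count

/-! Project ST: counting tuples after joining two cycles. -/

set_option autoImplicit false

namespace Pool.Agent.N795.ST

open Finset Equiv
open Pool.Agent.W805.LR (len cnt)

namespace N340Join

variable {V : Type}

/-- cycles of `h * swap a b` are contained in cycles of `h` if `a`, `b` are in one cycle -/
theorem merge [Finite V] [DecidableEq V] {h : Perm V} {a b : V} (hab : h.SameCycle a b) {u v : V}
    (huv : (h * swap a b).SameCycle u v) : h.SameCycle u v := by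
  have hstep : ∀ x, h.SameCycle x ((h * swap a b) x) := by
    intro x
    rw [Perm.mul_apply]
    have h1 : h.SameCycle x (swap a b x) := by
      by_cases hxa : x = a
      · rw [hxa, swap_apply_left]
        exact hab
      · by_cases hxb : x = b
        · rw [hxb, swap_apply_right]
          exact hab.symm
        · rw [swap_apply_of_ne_of_ne hxa hxb]
    exact Perm.sameCycle_apply_right.2 h1
  obtain ⟨n, hn⟩ := huv.exists_nat_pow_eq
  rw [← hn]
  clear hn
  induction n with
  | zero => exact Perm.SameCycle.refl _ _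
  | succ n ih =>
    rw [pow_succ', Perm.mul_apply]
    exact ih.trans (hstep _)

/-- the cycles after joining the cycles of `a` and `b` -/
theorem chr [Finite V] [DecidableEq V] {g : Perm V} {a b : V} (hab : ¬ g.SameCycle a b) (x y : V) :
    (g * swap a b).SameCycle x y ↔ g.SameCycle x y ∨
      ((g.SameCycle a x ∨ g.SameCycle b x) ∧ (g.SameCycle a y ∨ g.SameCycle b y)) := by
  have hj := Pool.Agent.TH268.PD.Count.joined g a b hab
  have hgh : g * swap a b * swap a b = g := by rw [mul_assoc, swap_mul_self, mul_one]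
  have h1 : ∀ u v, g.SameCycle u v → (g * swap a b).SameCycle u v := by
    intro u v huv
    apply merge hj
    rw [hgh]
    exact huv
  have h2 : ∀ u v, ¬ (g.SameCycle a u ∨ g.SameCycle b u) → (g * swap a b).SameCycle u v →
      g.SameCycle u v := by
    intro u v hu huv
    have hpow : ∀ n : ℕ, ((g * swap a b) ^ n) u = (g ^ n) u := by
      intro n
      induction n with
      | zero => rfl
      | succ n ih =>
        rw [pow_succ', pow_succ', Perm.mul_apply, Perm.mul_apply, ih]
        have h3 : (g ^ n) u ≠ a := by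
          intro h
          have h3 : g.SameCycle u a := ⟨n, by rw [zpow_natCast]; exact h⟩
          exact hu (Or.inl h3.symm)
        have h4 : (g ^ n) u ≠ b := by
          intro h
          have h3 : g.SameCycle u b := ⟨n, by rw [zpow_natCast]; exact h⟩
          exact hu (Or.inr h3.symm)
        rw [Perm.mul_apply, swap_apply_of_ne_of_ne h3 h4]
    obtain ⟨n, hn⟩ := huv.exists_nat_pow_eq
    refine ⟨n, ?_⟩
    rw [zpow_natCast, ← hpow]
    exact hn
  have h3 : ∀ u, (g.SameCycle a u ∨ g.SameCycle b u) → (g * swap a b).SameCycle a u := by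
    rintro u (h | h)
    · exact h1 _ _ h
    · exact hj.trans (h1 _ _ h)
  constructor
  · intro h
    by_cases hx : g.SameCycle a x ∨ g.SameCycle b x
    · by_cases hy : g.SameCycle a y ∨ g.SameCycle b y
      · exact Or.inr ⟨hx, hy⟩
      · exact Or.inl (h2 y x hy h.symm).symm
    · exact Or.inl (h2 x y hx h)
  · rintro (h | ⟨hx, hy⟩)
    · exact h1 _ _ h
    · exact (h3 x hx).symm.trans (h3 y hy)

/-- transversals -/
def Trv (R : V → V → Prop) {r : ℕ} (z : Fin r → V) (U : Finset V) : Prop :=
  (∀ i j, i ≠ j → ¬ R (z i) (z j)) ∧ ∀ w, w ∈ U ↔ ∃ i, R (z i) w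

section bij

variable {R R' : V → V → Prop} (hr : ∀ x, R x x) (hs : ∀ x y, R x y → R y x)
  (ht : ∀ x y z, R x y → R y z → R x z) {a b : V} (hab : ¬ R a b)
  (hR : ∀ x y, R' x y ↔ R x y ∨ ((R a x ∨ R b x) ∧ (R a y ∨ R b y)))

include hr hs ht hab hR

theorem fwd {r : ℕ} {z : Fin r → V} {U : Finset V} {j : Fin r} (hz : Trv R' z U)
    (hj : R a (z j) ∨ R b (z j)) :
    Trv R (Fin.snoc (α := fun _ => V) (Function.update z j a) b) U := by
  have hC : ∀ k, k ≠ j → ¬ (R a (z k) ∨ R b (z k)) := fun k hk hc =>
    hz.1 k j hk ((hR _ _).2 (Or.inr ⟨hc, hj⟩))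
  have h1 : ∀ k : Fin r, ¬ R b (Function.update z j a k) := by
    intro k h
    by_cases hk : k = j
    · subst hk
      rw [Function.update_self] at h
      exact hab (hs _ _ h)
    · rw [Function.update_of_ne hk] at h
      exact hC k hk (Or.inr h)
  constructor
  · intro p q
    refine Fin.lastCases ?_ (fun k => ?_) p
    · refine Fin.lastCases ?_ (fun k' => ?_) q
      · intro h
        exact absurd rfl h
      · intro _
        rw [Fin.snoc_last, Fin.snoc_castSucc]
        exact h1 k'
    · refine Fin.lastCases ?_ (fun k' => ?_) q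
      · intro _
        rw [Fin.snoc_last, Fin.snoc_castSucc]
        exact fun h => h1 k (hs _ _ h)
      · intro hkk
        rw [Fin.snoc_castSucc, Fin.snoc_castSucc]
        have hne : k ≠ k' := fun h => hkk (by rw [h])
        by_cases hk : k = j
        · subst hk
          rw [Function.update_self, Function.update_of_ne hne.symm]
          exact fun h => hC k' hne.symm (Or.inl h)
        · by_cases hk' : k' = j
          · subst hk'
            rw [Function.update_self, Function.update_of_ne hne]
            exact fun h => hC k hne (Or.inl (hs _ _ h))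
          · rw [Function.update_of_ne hk, Function.update_of_ne hk']
            exact fun h => hz.1 k k' hne ((hR _ _).2 (Or.inl h))
  · intro w
    have hCw : (R a w ∨ R b w) → ∃ p : Fin (r + 1),
        R (Fin.snoc (α := fun _ => V) (Function.update z j a) b p) w := by
      rintro (h | h)
      · refine ⟨j.castSucc, ?_⟩
        rw [Fin.snoc_castSucc, Function.update_self]
        exact h
      · refine ⟨Fin.last r, ?_⟩
        rw [Fin.snoc_last]
        exact h
    rw [hz.2 w]
    constructor
    · rintro ⟨i, hi⟩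
      rw [hR] at hi
      rcases hi with hi | ⟨_, hi⟩
      · by_cases hij : i = j
        · subst hij
          exact hCw (hj.imp (fun h => ht _ _ _ h hi) (fun h => ht _ _ _ h hi))
        · refine ⟨i.castSucc, ?_⟩
          rw [Fin.snoc_castSucc, Function.update_of_ne hij]
          exact hi
      · exact hCw hi
    · rintro ⟨p, hp⟩
      revert hp
      refine Fin.lastCases ?_ (fun k => ?_) p
      · rw [Fin.snoc_last]
        intro h
        exact ⟨j, (hR _ _).2 (Or.inr ⟨hj, Or.inr h⟩)⟩
      · rw [Fin.snoc_castSucc]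
        intro h
        by_cases hk : k = j
        · subst hk
          rw [Function.update_self] at h
          exact ⟨k, (hR _ _).2 (Or.inr ⟨hj, Or.inl h⟩)⟩
        · rw [Function.update_of_ne hk] at h
          exact ⟨k, (hR _ _).2 (Or.inl h)⟩

omit hab in
theorem bwd {r : ℕ} {y : Fin (r + 1) → V} {U : Finset V} {j : Fin r} {v : V} (hy : Trv R y U)
    (ha : y j.castSucc = a) (hb : y (Fin.last r) = b) (hv : R a v ∨ R b v) :
    Trv R' (Function.update (Fin.init y) j v) U := by
  have hC : ∀ k : Fin r, k ≠ j → ¬ (R a (y k.castSucc) ∨ R b (y k.castSucc)) := by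
    rintro k hk (h | h)
    · rw [← ha] at h
      exact hy.1 _ _ (fun h => hk (Fin.castSucc_injective r h).symm) h
    · rw [← hb] at h
      exact hy.1 _ _ (Fin.castSucc_lt_last k).ne' h
  have h1 : ∀ k : Fin r, k ≠ j → ¬ R v (y k.castSucc) := by
    intro k hk h
    exact hC k hk (hv.imp (fun h' => ht _ _ _ h' h) (fun h' => ht _ _ _ h' h))
  constructor
  · intro k k' hkk h
    rw [hR] at h
    by_cases hk : k = j
    · subst hk
      rw [Function.update_self, Function.update_of_ne hkk.symm] at h
      rcases h with h | ⟨_, h⟩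
      · exact h1 k' hkk.symm h
      · exact hC k' hkk.symm h
    · by_cases hk' : k' = j
      · subst hk'
        rw [Function.update_self, Function.update_of_ne hkk] at h
        rcases h with h | ⟨h, _⟩
        · exact h1 k hkk (hs _ _ h)
        · exact hC k hkk h
      · rw [Function.update_of_ne hk, Function.update_of_ne hk'] at h
        rcases h with h | ⟨h, _⟩
        · exact hy.1 _ _ (fun h => hkk (Fin.castSucc_injective r h)) h
        · exact hC k hk h
  · intro w
    have hCw : (R a w ∨ R b w) → ∃ i : Fin r, R' (Function.update (Fin.init y) j v i) w := by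
      intro h
      refine ⟨j, ?_⟩
      rw [Function.update_self]
      exact (hR _ _).2 (Or.inr ⟨hv, h⟩)
    rw [hy.2 w]
    constructor
    · rintro ⟨p, hp⟩
      revert hp
      refine Fin.lastCases ?_ (fun k => ?_) p
      · rw [hb]
        intro h
        exact hCw (Or.inr h)
      · intro h
        by_cases hk : k = j
        · subst hk
          rw [ha] at h
          exact hCw (Or.inl h)
        · refine ⟨k, ?_⟩
          rw [Function.update_of_ne hk]
          exact (hR _ _).2 (Or.inl h)
    · have hCp : (R a w ∨ R b w) → ∃ p : Fin (r + 1), R (y p) w := by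
        rintro (h | h)
        · exact ⟨j.castSucc, by rw [ha]; exact h⟩
        · exact ⟨Fin.last r, by rw [hb]; exact h⟩
      rintro ⟨i, hi⟩
      by_cases hij : i = j
      · subst hij
        rw [Function.update_self, hR] at hi
        rcases hi with hi | ⟨_, hi⟩
        · exact hCp (hv.imp (fun h => ht _ _ _ h hi) (fun h => ht _ _ _ h hi))
        · exact hCp hi
      · rw [Function.update_of_ne hij, hR] at hi
        rcases hi with hi | ⟨_, hi⟩
        · exact ⟨i.castSucc, hi⟩
        · exact hCp hi

end bij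

open Classical in
theorem ntup_eq [Fintype V] [DecidableEq V] (r : ℕ) (g : Perm V) (U : Finset V) :
    ntup r g U = ((univ.filter (fun z : Fin r → V => Trv g.SameCycle z U)).card : ℝ) := by
  unfold ntup
  rw [Finset.card_filter]
  push_cast
  refine Finset.sum_congr rfl fun z _ => ?_
  unfold Trv
  split_ifs <;> rfl

open Classical in
theorem card_PQ [Fintype V] [DecidableEq V] (r : ℕ) (g : Perm V) (U : Finset V) (j : Fin r) :
    (univ.filter (fun q : V × V × (Fin r → V) => (q.1 ∈ U ∧ q.2.1 ∈ U ∧ ¬ g.SameCycle q.1 q.2.1) ∧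
      Trv (g * swap q.1 q.2.1).SameCycle q.2.2 U ∧
      (g.SameCycle q.1 (q.2.2 j) ∨ g.SameCycle q.2.1 (q.2.2 j)))).card =
    (univ.filter (fun q : (Fin (r + 1) → V) × V => Trv g.SameCycle q.1 U ∧
      (g.SameCycle (q.1 j.castSucc) q.2 ∨ g.SameCycle (q.1 (Fin.last r)) q.2))).card := by
  have hr : ∀ x, g.SameCycle x x := fun x => Perm.SameCycle.refl g x
  have hs : ∀ x y, g.SameCycle x y → g.SameCycle y x := fun x y h => h.symm
  have ht : ∀ x y z, g.SameCycle x y → g.SameCycle y z → g.SameCycle x z := fun x y z h h' =>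
    h.trans h'
  refine Finset.card_nbij'
    (fun q => (Fin.snoc (α := fun _ => V) (Function.update q.2.2 j q.1) q.2.1, q.2.2 j))
    (fun q => (q.1 j.castSucc, q.1 (Fin.last r), Function.update (Fin.init q.1) j q.2)) ?_ ?_ ?_ ?_
  · rintro ⟨a, b, z⟩ hq
    simp only [coe_filter, mem_univ, true_and, Set.mem_ofPred_eq] at hq ⊢
    obtain ⟨⟨_, _, hab⟩, hz, hj⟩ := hq
    refine ⟨fwd hr hs ht hab (chr hab) hz hj, ?_⟩
    rw [Fin.snoc_castSucc, Fin.snoc_last, Function.update_self]
    exact hj
  · rintro ⟨y, v⟩ hq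
    simp only [coe_filter, mem_univ, true_and, Set.mem_ofPred_eq] at hq ⊢
    obtain ⟨hy, hv⟩ := hq
    have hab : ¬ g.SameCycle (y j.castSucc) (y (Fin.last r)) :=
      hy.1 _ _ (Fin.castSucc_lt_last j).ne
    refine ⟨⟨(hy.2 _).2 ⟨_, hr _⟩, (hy.2 _).2 ⟨_, hr _⟩, hab⟩,
      bwd hr hs ht (chr hab) hy rfl rfl hv, ?_⟩
    rw [Function.update_self]
    exact hv
  · rintro ⟨a, b, z⟩ hq
    simp only [Fin.snoc_castSucc, Fin.snoc_last, Function.update_self, Fin.init_snoc,
      Function.update_idem, Function.update_eq_self]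
  · rintro ⟨y, v⟩ hq
    simp only [Function.update_self, Function.update_idem]
    have h1 : Function.update (Fin.init y) j (y j.castSucc) = Fin.init y :=
      Function.update_eq_self j (Fin.init y)
    rw [h1, Fin.snoc_init_self]

open Classical in
theorem Tr_sum [Fintype V] [DecidableEq V] {R : V → V → Prop} (hr : ∀ x, R x x)
    (hs : ∀ x y, R x y → R y x) (ht : ∀ x y z, R x y → R y z → R x z) {r : ℕ} {z : Fin r → V}
    {U : Finset V} (hz : Trv R z U) :
    ∑ i, ∑ w, (if R (z i) w then (1 : ℝ) else 0) = U.card := by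
  rw [Finset.sum_comm, ← Finset.sum_filter_add_sum_filter_not univ (fun w => w ∈ U)]
  have h1 : ∑ w ∈ univ.filter (fun w => w ∉ U), ∑ i, (if R (z i) w then (1 : ℝ) else 0) = 0 := by
    refine Finset.sum_eq_zero fun w hw => Finset.sum_eq_zero fun i _ => if_neg fun h => ?_
    exact (mem_filter.1 hw).2 ((hz.2 w).2 ⟨i, h⟩)
  have h2 : ∑ w ∈ univ.filter (fun w => w ∈ U), ∑ i, (if R (z i) w then (1 : ℝ) else 0) =
      ∑ w ∈ univ.filter (fun w => w ∈ U), (1 : ℝ) := by
    refine Finset.sum_congr rfl fun w hw => ?_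
    obtain ⟨i, hi⟩ := (hz.2 w).1 (mem_filter.1 hw).2
    rw [Finset.sum_eq_single i]
    · rw [if_pos hi]
    · intro k _ hk
      exact if_neg fun h => hz.1 k i hk (ht _ _ _ h (hs _ _ hi))
    · intro h
      exact absurd (mem_univ i) h
  rw [h1, h2, add_zero, Finset.sum_const, nsmul_eq_mul, mul_one]
  congr 2
  ext w
  simp

end N340Join

open N340Join in
open Classical in
theorem join : Join := by
  intro V _ _ r g U hr1
  have hr : ∀ x, g.SameCycle x x := fun x => Perm.SameCycle.refl g x
  have hs : ∀ x y, g.SameCycle x y → g.SameCycle y x := fun x y h => h.symm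
  have ht : ∀ x y z, g.SameCycle x y → g.SameCycle y z → g.SameCycle x z := fun x y z h h' =>
    h.trans h'
  -- the left side as a sum over `j`
  have hL : ∑ a, ∑ b, (if a ∈ U ∧ b ∈ U ∧ ¬ g.SameCycle a b then ntup r (g * swap a b) U else 0) =
      ∑ j : Fin r, ((univ.filter (fun q : V × V × (Fin r → V) =>
        (q.1 ∈ U ∧ q.2.1 ∈ U ∧ ¬ g.SameCycle q.1 q.2.1) ∧
        Trv (g * swap q.1 q.2.1).SameCycle q.2.2 U ∧
        (g.SameCycle q.1 (q.2.2 j) ∨ g.SameCycle q.2.1 (q.2.2 j)))).card : ℝ) := by
    have h1 : ∀ j : Fin r, ((univ.filter (fun q : V × V × (Fin r → V) =>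
        (q.1 ∈ U ∧ q.2.1 ∈ U ∧ ¬ g.SameCycle q.1 q.2.1) ∧
        Trv (g * swap q.1 q.2.1).SameCycle q.2.2 U ∧
        (g.SameCycle q.1 (q.2.2 j) ∨ g.SameCycle q.2.1 (q.2.2 j)))).card : ℝ) =
        ∑ a, ∑ b, ∑ z : Fin r → V, (if (a ∈ U ∧ b ∈ U ∧ ¬ g.SameCycle a b) ∧
          Trv (g * swap a b).SameCycle z U ∧ (g.SameCycle a (z j) ∨ g.SameCycle b (z j))
          then (1 : ℝ) else 0) := by
      intro j
      rw [Finset.card_filter]
      push_cast
      rw [Fintype.sum_prod_type]
      refine Finset.sum_congr rfl fun a _ => ?_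
      rw [Fintype.sum_prod_type]
    rw [Finset.sum_congr rfl fun j _ => h1 j]
    symm
    rw [Finset.sum_comm]
    refine Finset.sum_congr rfl fun a _ => ?_
    rw [Finset.sum_comm]
    refine Finset.sum_congr rfl fun b _ => ?_
    rw [Finset.sum_comm]
    symm
    by_cases hab : a ∈ U ∧ b ∈ U ∧ ¬ g.SameCycle a b
    · rw [if_pos hab, ntup_eq, Finset.card_filter]
      push_cast
      refine Finset.sum_congr rfl fun z _ => ?_
      by_cases hz : Trv (g * swap a b).SameCycle z U
      · rw [if_pos hz]
        obtain ⟨i, hi⟩ := (hz.2 a).1 hab.1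
        have hiC : g.SameCycle a (z i) ∨ g.SameCycle b (z i) := by
          rw [chr hab.2.2] at hi
          rcases hi with hi | ⟨hi, _⟩
          · exact Or.inl hi.symm
          · exact hi
        rw [Finset.sum_eq_single i]
        · rw [if_pos ⟨hab, hz, hiC⟩]
        · intro k _ hk
          refine if_neg fun h => ?_
          exact hz.1 k i hk ((chr hab.2.2 _ _).2 (Or.inr ⟨h.2.2, hiC⟩))
        · intro h
          exact absurd (mem_univ i) h
      · rw [if_neg hz]
        symm
        refine Finset.sum_eq_zero fun j _ => ?_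
        exact if_neg fun h => hz h.2.1
    · rw [if_neg hab]
      symm
      refine Finset.sum_eq_zero fun z _ => ?_
      refine Finset.sum_eq_zero fun j _ => ?_
      exact if_neg fun h => hab h.1
  rw [hL]
  -- the sums `S i`
  obtain ⟨S, hS⟩ : ∃ S : Fin (r + 1) → ℝ, ∀ i, S i = ∑ y : Fin (r + 1) → V,
      (if Trv g.SameCycle y U then ∑ w, (if g.SameCycle (y i) w then (1 : ℝ) else 0) else 0) :=
    ⟨_, fun _ => rfl⟩
  have hQ : ∀ j : Fin r, ((univ.filter (fun q : (Fin (r + 1) → V) × V => Trv g.SameCycle q.1 U ∧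
      (g.SameCycle (q.1 j.castSucc) q.2 ∨ g.SameCycle (q.1 (Fin.last r)) q.2))).card : ℝ) =
      S j.castSucc + S (Fin.last r) := by
    intro j
    rw [Finset.card_filter]
    push_cast
    rw [Fintype.sum_prod_type, hS, hS, ← Finset.sum_add_distrib]
    refine Finset.sum_congr rfl fun y _ => ?_
    by_cases hy : Trv g.SameCycle y U
    · rw [if_pos hy, if_pos hy, ← Finset.sum_add_distrib]
      refine Finset.sum_congr rfl fun v _ => ?_
      have hab : ¬ g.SameCycle (y j.castSucc) (y (Fin.last r)) :=
        hy.1 _ _ (Fin.castSucc_lt_last j).ne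
      by_cases h1 : g.SameCycle (y j.castSucc) v
      · have h2 : ¬ g.SameCycle (y (Fin.last r)) v := fun h2 => hab (h1.trans h2.symm)
        rw [if_pos ⟨hy, Or.inl h1⟩, if_pos h1, if_neg h2, add_zero]
      · by_cases h2 : g.SameCycle (y (Fin.last r)) v
        · rw [if_pos ⟨hy, Or.inr h2⟩, if_neg h1, if_pos h2, zero_add]
        · rw [if_neg (fun h => h.2.elim h1 h2), if_neg h1, if_neg h2, add_zero]
    · rw [if_neg hy, if_neg hy, add_zero]
      exact Finset.sum_eq_zero fun v _ => if_neg fun h => hy h.1
  have hsym : ∀ i k : Fin (r + 1), S i = S k := by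
    intro i k
    rw [hS, hS]
    refine Fintype.sum_equiv (Equiv.arrowCongr (swap i k) (Equiv.refl V)) _ _ fun y => ?_
    have h1 : ∀ l, (Equiv.arrowCongr (swap i k) (Equiv.refl V)) y l = y (swap i k l) := by
      intro l
      rfl
    have h2 : Trv g.SameCycle ((Equiv.arrowCongr (swap i k) (Equiv.refl V)) y) U ↔
        Trv g.SameCycle y U := by
      unfold Trv
      simp only [h1]
      constructor
      · rintro ⟨h3, h4⟩
        refine ⟨fun p q hpq => ?_, fun w => ?_⟩
        · have := h3 (swap i k p) (swap i k q) (fun h => hpq ((swap i k).injective h))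
          simpa using this
        · rw [h4 w]
          constructor
          · rintro ⟨p, hp⟩
            exact ⟨_, hp⟩
          · rintro ⟨p, hp⟩
            exact ⟨swap i k p, by rw [swap_apply_self]; exact hp⟩
      · rintro ⟨h3, h4⟩
        refine ⟨fun p q hpq => h3 _ _ (fun h => hpq ((swap i k).injective h)), fun w => ?_⟩
        rw [h4 w]
        constructor
        · rintro ⟨p, hp⟩
          exact ⟨swap i k p, by rw [swap_apply_self]; exact hp⟩
        · rintro ⟨p, hp⟩
          exact ⟨_, hp⟩
    simp only [h2, h1, swap_apply_right]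
  have htot : ∑ i, S i = U.card * ntup (r + 1) g U := by
    simp only [hS]
    rw [Finset.sum_comm, ntup_eq, Finset.card_filter]
    push_cast
    rw [Finset.mul_sum]
    refine Finset.sum_congr rfl fun y _ => ?_
    by_cases hy : Trv g.SameCycle y U
    · simp only [if_pos hy, mul_one]
      convert Tr_sum hr hs ht hy
    · simp only [if_neg hy, Finset.sum_const_zero, mul_zero]
  have hS0 : ((r : ℝ) + 1) * S (Fin.last r) = U.card * ntup (r + 1) g U := by
    rw [← htot, Finset.sum_congr rfl fun i _ => hsym i (Fin.last r), Finset.sum_const,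
      Finset.card_univ, Fintype.card_fin, nsmul_eq_mul]
    push_cast
    ring
  have hP : ∀ j : Fin r, ((univ.filter (fun q : V × V × (Fin r → V) =>
        (q.1 ∈ U ∧ q.2.1 ∈ U ∧ ¬ g.SameCycle q.1 q.2.1) ∧
        Trv (g * swap q.1 q.2.1).SameCycle q.2.2 U ∧
        (g.SameCycle q.1 (q.2.2 j) ∨ g.SameCycle q.2.1 (q.2.2 j)))).card : ℝ) =
        2 * S (Fin.last r) := by
    intro j
    rw [card_PQ, hQ, hsym j.castSucc (Fin.last r)]
    ring
  rw [Finset.sum_congr rfl fun j _ => hP j, Finset.sum_const, Finset.card_univ, Fintype.card_fin,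
    nsmul_eq_mul]
  have h0 : ((r : ℝ) + 1) ≠ 0 := by positivity
  rw [mul_assoc (2 * (r : ℝ) / (r + 1)), ← hS0]
  field_simp

end Pool.Agent.N795.ST
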