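import Pool.Agent.Helper827.Brou.Spec
import Pool.Agent.N340.KyFan

/-!
# The Brouwer inequality for nonnegative edge weights
-/

set_option autoImplicit false

open Finset

namespace Pool.Agent.N340

variable {n : ℕ}

/-- the weighted Laplacian -/
def lap (w : Matrix (Fin n) (Fin n) ℝ) : Matrix (Fin n) (Fin n) ℝ :=
  Matrix.diagonal (fun i => ∑ j, w i j) - w

theorem lap_apply (w : Matrix (Fin n) (Fin n) ℝ) (v x : Fin n) :
    lap w v x = (if v = x then ∑ j, w v j else 0) - w v x := by
  rw [lap, Matrix.sub_apply, Matrix.diagonal_apply]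

theorem lap_mulVec (w : Matrix (Fin n) (Fin n) ℝ) (x : Fin n → ℝ) (v : Fin n) :
    (lap w).mulVec x v = ∑ u, w v u * (x v - x u) := by
  simp only [Matrix.mulVec, dotProduct, lap_apply, sub_mul, ite_mul, zero_mul,
    Finset.sum_sub_distrib, Finset.sum_ite_eq, Finset.mem_univ, if_true, mul_sub, Finset.sum_mul]

theorem lap_herm (w : Matrix (Fin n) (Fin n) ℝ) (hs : ∀ i j, w i j = w j i) :
    (lap w).IsHermitian := by
  unfold lap
  apply Matrix.IsHermitian.sub
  · exact Matrix.isHermitian_diagonal _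
  · ext i j
    simp [Matrix.conjTranspose_apply, hs j i]

theorem lap_quad (w : Matrix (Fin n) (Fin n) ℝ) (hs : ∀ i j, w i j = w j i) (x : Fin n → ℝ) :
    2 * ∑ v, ∑ u, x v * (lap w v u * x u) = ∑ v, ∑ u, w v u * (x v - x u) ^ 2 := by
  have h1 : ∑ v, ∑ u, x v * (lap w v u * x u) = ∑ v, ∑ u, w v u * (x v * (x v - x u)) := by
    refine Finset.sum_congr rfl fun v _ => ?_
    have := lap_mulVec w x v
    simp only [Matrix.mulVec, dotProduct] at this
    rw [← Finset.mul_sum, this, Finset.mul_sum]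
    exact Finset.sum_congr rfl fun u _ => by ring
  have h2 : ∑ v, ∑ u, w v u * (x v * (x v - x u)) = ∑ v, ∑ u, w v u * (x u * (x u - x v)) := by
    rw [Finset.sum_comm]
    exact Finset.sum_congr rfl fun v _ => Finset.sum_congr rfl fun u _ => by rw [hs v u]
  have h3 : 2 * ∑ v, ∑ u, x v * (lap w v u * x u)
      = ∑ v, ∑ u, w v u * (x v * (x v - x u)) + ∑ v, ∑ u, w v u * (x u * (x u - x v)) := by
    rw [h1]; linarith [h2]
  rw [h3, ← Finset.sum_add_distrib]
  refine Finset.sum_congr rfl fun v _ => ?_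
  rw [← Finset.sum_add_distrib]
  exact Finset.sum_congr rfl fun u _ => by ring

theorem lap_psd (w : Matrix (Fin n) (Fin n) ℝ) (hs : ∀ i j, w i j = w j i)
    (h0 : ∀ i j, 0 ≤ w i j) (x : Fin n → ℝ) : 0 ≤ ∑ v, ∑ u, x v * (lap w v u * x u) := by
  have := lap_quad w hs x
  have h2 : 0 ≤ ∑ v, ∑ u, w v u * (x v - x u) ^ 2 :=
    Finset.sum_nonneg fun v _ => Finset.sum_nonneg fun u _ => mul_nonneg (h0 v u) (sq_nonneg _)
  linarith

theorem eig_nonneg (w : Matrix (Fin n) (Fin n) ℝ) (hs : ∀ i j, w i j = w j i)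
    (h0 : ∀ i j, 0 ≤ w i j) (hM : (lap w).IsHermitian) (i : Fin n) : 0 ≤ hM.eigenvalues i := by
  have hp : (lap w).PosSemidef := by
    refine Matrix.PosSemidef.of_dotProduct_mulVec_nonneg hM fun x => ?_
    have := lap_psd w hs h0 x
    simp only [dotProduct, Matrix.mulVec, Pi.star_apply, star_trivial, Finset.mul_sum]
    exact this
  exact hp.eigenvalues_nonneg i

theorem lap_trace (w : Matrix (Fin n) (Fin n) ℝ) (hd : ∀ i, w i i = 0) :
    (lap w).trace = ∑ v, ∑ u, w v u := by
  simp only [lap, Matrix.trace_sub, Matrix.trace_diagonal]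
  have : w.trace = 0 := by simp [Matrix.trace, hd]
  rw [this, sub_zero]

/-- the Brouwer inequality for weights in `[0, 1]` -/
theorem brouwer01 (w : Matrix (Fin n) (Fin n) ℝ) (hs : ∀ i j, w i j = w j i)
    (h0 : ∀ i j, 0 ≤ w i j) (h1 : ∀ i j, w i j ≤ 1) (hd : ∀ i, w i i = 0)
    (hM : (lap w).IsHermitian) (k : ℕ) (hk : k + 1 ≤ n) :
    2 * (∑ i : Fin (Fintype.card (Fin n)), if (i : ℕ) < k then hM.eigenvalues₀ i else 0)
      ≤ (∑ v, ∑ u, w v u) + k * (k + 1) := by
  let e : Fin (Fintype.card (Fin n)) ≃ Fin n := Fintype.equivOfCardEq (Fintype.card_fin _)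
  have h := Pool.Agent.Helper827.Brou.basisForm (V := Fin n) (Fintype.card (Fin n)) rfl
    (fun v u => w v u) h0 h1 hs hd
    (fun i => ⇑(hM.eigenvectorBasis (e i))) ?_ hM.eigenvalues₀ hM.eigenvalues₀_antitone ?_ ?_ ?_
    k k le_rfl (by rw [Fintype.card_fin]; exact hk)
  · linarith
  · have h1 := hM.eigenvectorBasis.toBasis.linearIndependent
    have h2 := h1.comp e e.injective
    have h3 := h2.map' (WithLp.linearEquiv 2 ℝ (Fin n → ℝ)).toLinearMap
      (LinearMap.ker_eq_bot.mpr (WithLp.linearEquiv 2 ℝ (Fin n → ℝ)).injective)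
    have h4 : (fun i => ⇑(hM.eigenvectorBasis (e i))) =
        (⇑(WithLp.linearEquiv 2 ℝ (Fin n → ℝ)).toLinearMap ∘
          ⇑hM.eigenvectorBasis.toBasis ∘ ⇑e) := by
      ext i v
      simp
    rw [h4]
    exact h3
  · intro i
    have := eig_nonneg w hs h0 hM (e i)
    simp only [Matrix.IsHermitian.eigenvalues, e, Equiv.symm_apply_apply] at this
    exact this
  · intro i v
    have h1 := hM.mulVec_eigenvectorBasis (e i)
    have h2 := congrFun h1 v
    rw [lap_mulVec] at h2
    rw [h2]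
    simp [Matrix.IsHermitian.eigenvalues, e]
  · have h1 := hM.trace_eq_sum_eigenvalues
    rw [lap_trace w hd] at h1
    rw [h1]
    simp only [Matrix.IsHermitian.eigenvalues, RCLike.ofReal_real_eq_id, id_eq]
    exact (Equiv.sum_comp e.symm _).symm

/-- the set of pairs -/
def pairs (n : ℕ) : Finset (Fin n × Fin n) := univ.filter fun p => p.1 < p.2

theorem card_pairs (n : ℕ) : (pairs n).card = n.choose 2 := by
  have h1 : ∑ i : Fin n, ∑ j : Fin n, (if i < j then 1 else 0) = (pairs n).card := by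
    rw [pairs, Finset.card_filter, ← Finset.univ_product_univ, Finset.sum_product]
  rw [← h1]
  have h2 : ∀ i : Fin n, ∑ j : Fin n, (if i < j then 1 else 0) = n - 1 - i := by
    intro i
    rw [← Finset.card_filter]
    have : (univ.filter fun j : Fin n => i < j) = Finset.Ioi i := by ext j; simp
    rw [this, Fin.card_Ioi]
  simp only [h2]
  rw [Fin.sum_univ_eq_sum_range (fun i : ℕ => n - 1 - i) n, Finset.sum_range_reflect (fun j => j) n,
    Finset.sum_range_id, Nat.choose_two_right]

theorem sum_pairs (w : Matrix (Fin n) (Fin n) ℝ) :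
    (∑ i, ∑ j, if i < j then w i j else 0) = ∑ p ∈ pairs n, w p.1 p.2 := by
  rw [pairs, Finset.sum_filter, ← Finset.univ_product_univ, Finset.sum_product]

theorem sum_sym (w : Matrix (Fin n) (Fin n) ℝ) (hs : ∀ i j, w i j = w j i) (hd : ∀ i, w i i = 0) :
    ∑ v, ∑ u, w v u = 2 * ∑ p ∈ pairs n, w p.1 p.2 := by
  rw [← sum_pairs]
  have h1 : ∑ i, ∑ j, (if i < j then w i j else 0) = ∑ i, ∑ j, (if j < i then w i j else 0) := by
    rw [Finset.sum_comm]
    exact Finset.sum_congr rfl fun i _ => Finset.sum_congr rfl fun j _ => by rw [hs]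
  rw [two_mul]
  nth_rewrite 2 [h1]
  rw [← Finset.sum_add_distrib]
  refine Finset.sum_congr rfl fun i _ => ?_
  rw [← Finset.sum_add_distrib]
  refine Finset.sum_congr rfl fun j _ => ?_
  rcases lt_trichotomy i j with h | h | h
  · rw [if_pos h, if_neg h.le.not_gt, add_zero]
  · subst h; simp [hd]
  · rw [if_neg h.le.not_gt, if_pos h, zero_add]

/-- a subset of given size on which a function is at least as large as outside -/
theorem exists_top {α : Type*} [DecidableEq α] (S : Finset α) (f : α → ℝ) (N : ℕ)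
    (hN : N ≤ S.card) (hN0 : 1 ≤ N) :
    ∃ P ⊆ S, P.card = N ∧ ∃ t, (∀ p ∈ P, t ≤ f p) ∧ (∀ p ∈ S \ P, f p ≤ t) ∧
      ∃ p ∈ P, f p = t := by
  obtain ⟨P, hP, hmax⟩ := Finset.exists_max_image (S.powersetCard N) (fun P => ∑ p ∈ P, f p)
    (Finset.powersetCard_nonempty.2 hN)
  rw [Finset.mem_powersetCard] at hP
  have hne : P.Nonempty := by
    rw [← Finset.card_pos]; omega
  obtain ⟨p0, hp0, hmin⟩ := Finset.exists_min_image P f hne
  refine ⟨P, hP.1, hP.2, f p0, hmin, ?_, p0, hp0, rfl⟩
  intro q hq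
  rw [Finset.mem_sdiff] at hq
  by_contra hcon
  push Not at hcon
  have hq' : q ∉ P.erase p0 := fun h => hq.2 (Finset.mem_of_mem_erase h)
  have h1 := hmax (insert q (P.erase p0)) (by
    rw [Finset.mem_powersetCard]
    refine ⟨?_, ?_⟩
    · intro x hx
      rw [Finset.mem_insert] at hx
      rcases hx with rfl | hx
      · exact hq.1
      · exact hP.1 (Finset.mem_of_mem_erase hx)
    · rw [Finset.card_insert_of_notMem hq', Finset.card_erase_of_mem hp0, hP.2]
      omega)
  rw [Finset.sum_insert hq', ← Finset.add_sum_erase P f hp0] at h1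
  linarith

/-- sum of a form over part of an orthonormal basis is at most the trace if the form is positive -/
theorem psd_le_trace (w : Matrix (Fin n) (Fin n) ℝ) (hs : ∀ i j, w i j = w j i)
    (h0 : ∀ i j, 0 ≤ w i j) (u : OrthonormalBasis (Fin n) ℝ (EuclideanSpace ℝ (Fin n)))
    (s : Finset (Fin n)) :
    ∑ i ∈ s, ∑ v, ∑ x, u i v * (lap w v x * u i x) ≤ (lap w).trace := by
  have h1 : ∑ i ∈ s, ∑ v, ∑ x, u i v * (lap w v x * u i x)
      ≤ ∑ i, ∑ v, ∑ x, u i v * (lap w v x * u i x) :=
    Finset.sum_le_sum_of_subset_of_nonneg (Finset.subset_univ _)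
      fun i _ _ => lap_psd w hs h0 (u i).ofLp
  refine h1.trans (le_of_eq ?_)
  have h2 : ∀ v x : Fin n, ∑ i, u i v * u i x = if v = x then 1 else 0 := by
    intro v x
    have h3 := u.sum_inner_mul_inner (EuclideanSpace.single v (1 : ℝ))
      (EuclideanSpace.single x (1 : ℝ))
    simp only [EuclideanSpace.inner_single_left, EuclideanSpace.inner_single_right, map_one,
      one_mul, conj_trivial] at h3
    rw [h3]
    simp [Pi.single_apply, eq_comm]
  have h4 : ∑ i, ∑ v, ∑ x, u i v * (lap w v x * u i x)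
      = ∑ v, ∑ x, lap w v x * ∑ i, u i v * u i x := by
    rw [Finset.sum_comm]
    refine Finset.sum_congr rfl fun v _ => ?_
    rw [Finset.sum_comm]
    refine Finset.sum_congr rfl fun x _ => ?_
    rw [Finset.mul_sum]
    exact Finset.sum_congr rfl fun i _ => by ring
  rw [h4]
  simp only [h2, mul_ite, mul_one, mul_zero, Finset.sum_ite_eq, Finset.mem_univ, if_true]
  rfl

/-- **The Brouwer inequality for nonnegative edge weights.** -/
theorem main (A : Matrix (Fin n) (Fin n) ℝ) (hA : ∀ i j, A i j = A j i) (h0 : ∀ i j, 0 ≤ A i j)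
    (hd : ∀ i, A i i = 0) (hL : (lap A).IsHermitian) (k : ℕ) (hk1 : 1 ≤ k) (hk : k ≤ n - 1)
    (s : Finset (Fin n)) (hs : s.card = k) :
    ∃ P : Finset (Fin n × Fin n), P.card = (k + 1).choose 2 ∧ (∀ p ∈ P, p.1 < p.2) ∧
      ∑ i ∈ s, hL.eigenvalues i ≤
        (∑ i, ∑ j, if i < j then A i j else 0) + ∑ p ∈ P, A p.1 p.2 := by
  have hkn : k + 1 ≤ n := by omega
  have hN : (k + 1).choose 2 ≤ (pairs n).card := by
    rw [card_pairs]; exact Nat.choose_le_choose 2 hkn
  have hN0 : 1 ≤ (k + 1).choose 2 := Nat.choose_pos (by omega)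
  obtain ⟨P, hPS, hPc, t, hP1, hP2, p0, hp0, hpt⟩ :=
    exists_top (pairs n) (fun p => A p.1 p.2) _ hN hN0
  refine ⟨P, hPc, fun p hp => by simpa [pairs] using hPS hp, ?_⟩
  have ht0 : 0 ≤ t := by rw [← hpt]; exact h0 _ _
  rw [sum_pairs]
  -- the two parts
  let A1 : Matrix (Fin n) (Fin n) ℝ := fun i j => min (A i j) t
  let A2 : Matrix (Fin n) (Fin n) ℝ := fun i j => A i j - min (A i j) t
  have hA1s : ∀ i j, A1 i j = A1 j i := fun i j => by simp only [A1]; rw [hA i j]
  have hA2s : ∀ i j, A2 i j = A2 j i := fun i j => by simp only [A2]; rw [hA i j]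
  have hA10 : ∀ i j, 0 ≤ A1 i j := fun i j => le_min (h0 i j) ht0
  have hA20 : ∀ i j, 0 ≤ A2 i j := fun i j => by
    simp only [A2]; linarith [min_le_left (A i j) t]
  have hA1d : ∀ i, A1 i i = 0 := fun i => by simp [A1, hd, ht0]
  have hA2d : ∀ i, A2 i i = 0 := fun i => by simp [A2, hd, ht0]
  have hsum : ∀ v x, lap A v x = lap A1 v x + lap A2 v x := by
    intro v x
    rw [lap_apply, lap_apply, lap_apply]
    simp only [A1, A2]
    split_ifs with h
    · rw [Finset.sum_sub_distrib]; ring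
    · ring
  -- eigenvalues as quadratic forms
  have heig : ∀ i, hL.eigenvalues i
      = ∑ v, ∑ x, hL.eigenvectorBasis i v * (lap A v x * hL.eigenvectorBasis i x) := by
    intro i
    have h1 := hL.mulVec_eigenvectorBasis i
    have h2 : ∑ v, hL.eigenvectorBasis i v * hL.eigenvectorBasis i v = 1 := by
      have h3 : inner ℝ (hL.eigenvectorBasis i) (hL.eigenvectorBasis i) = (1 : ℝ) := by
        rw [real_inner_self_eq_norm_sq, hL.eigenvectorBasis.norm_eq_one]; norm_num
      rw [PiLp.inner_apply] at h3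
      simpa [sq] using h3
    have h4 : ∀ v, ∑ x, hL.eigenvectorBasis i v * (lap A v x * hL.eigenvectorBasis i x)
        = hL.eigenvalues i * (hL.eigenvectorBasis i v * hL.eigenvectorBasis i v) := by
      intro v
      have h5 := congrFun h1 v
      simp only [Matrix.mulVec, dotProduct, Pi.smul_apply, smul_eq_mul] at h5
      rw [← Finset.mul_sum, h5]
      ring
    simp only [h4, ← Finset.mul_sum, h2, mul_one]
  have hsplit : ∑ i ∈ s, hL.eigenvalues i
      = ∑ i ∈ s, ∑ v, ∑ x, hL.eigenvectorBasis i v * (lap A1 v x * hL.eigenvectorBasis i x)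
        + ∑ i ∈ s, ∑ v, ∑ x, hL.eigenvectorBasis i v * (lap A2 v x * hL.eigenvectorBasis i x) := by
    rw [← Finset.sum_add_distrib]
    refine Finset.sum_congr rfl fun i _ => ?_
    rw [heig i, ← Finset.sum_add_distrib]
    refine Finset.sum_congr rfl fun v _ => ?_
    rw [← Finset.sum_add_distrib]
    refine Finset.sum_congr rfl fun x _ => ?_
    rw [hsum]; ring
  -- second part
  have hp2 := psd_le_trace A2 hA2s hA20 hL.eigenvectorBasis s
  rw [lap_trace A2 hA2d, sum_sym A2 hA2s hA2d] at hp2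
  -- sums over pairs
  have hA2P : ∑ p ∈ pairs n, A2 p.1 p.2 = ∑ p ∈ P, A2 p.1 p.2 := by
    symm
    refine Finset.sum_subset hPS fun p hp hp' => ?_
    have := hP2 p (Finset.mem_sdiff.2 ⟨hp, hp'⟩)
    simp only [A2]
    rw [min_eq_left this, sub_self]
  have hA2P' : ∑ p ∈ P, A2 p.1 p.2 = ∑ p ∈ P, A p.1 p.2 - t * ((k + 1).choose 2 : ℕ) := by
    have : ∀ p ∈ P, A2 p.1 p.2 = A p.1 p.2 - t := fun p hp => by
      simp only [A2]; rw [min_eq_right (hP1 p hp)]
    rw [Finset.sum_congr rfl this, Finset.sum_sub_distrib, Finset.sum_const, hPc, nsmul_eq_mul]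
    ring
  have hA12 : ∑ p ∈ pairs n, A p.1 p.2 = ∑ p ∈ pairs n, A1 p.1 p.2 + ∑ p ∈ pairs n, A2 p.1 p.2 := by
    rw [← Finset.sum_add_distrib]
    exact Finset.sum_congr rfl fun p _ => by simp only [A1, A2]; ring
  have hch : (((k + 1).choose 2 : ℕ) : ℝ) = k * (k + 1) / 2 := by
    rw [Nat.cast_choose_two]; push_cast; ring
  -- first part
  have hp1 : ∑ i ∈ s, ∑ v, ∑ x, hL.eigenvectorBasis i v * (lap A1 v x * hL.eigenvectorBasis i x)
      ≤ ∑ p ∈ pairs n, A1 p.1 p.2 + t * ((k + 1).choose 2 : ℕ) := by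
    rcases eq_or_lt_of_le ht0 with h | hpos
    · -- `t = 0`
      have hz : ∀ i j, A1 i j = 0 := fun i j => by
        simp only [A1, ← h]; exact min_eq_right (h0 i j)
      have hz2 : ∀ v x, lap A1 v x = 0 := by
        intro v x
        rw [lap_apply]; simp [hz]
      simp [hz2, hz, ← h]
    · let w : Matrix (Fin n) (Fin n) ℝ := fun i j => A1 i j / t
      have hws : ∀ i j, w i j = w j i := fun i j => by simp only [w]; rw [hA1s i j]
      have hw0 : ∀ i j, 0 ≤ w i j := fun i j => div_nonneg (hA10 i j) hpos.le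
      have hw1 : ∀ i j, w i j ≤ 1 := fun i j => by
        simp only [w]; rw [div_le_one hpos]; exact min_le_right _ _
      have hwd : ∀ i, w i i = 0 := fun i => by simp [w, hA1d]
      have hB := brouwer01 w hws hw0 hw1 hwd (lap_herm w hws) k hkn
      have hK := kyFan (lap w) (lap_herm w hws) hL.eigenvectorBasis s
        (by rw [hs, Fintype.card_fin]; omega)
      rw [hs] at hK
      have hA1w : ∀ v x, lap A1 v x = t * lap w v x := by
        intro v x
        have e1 : ∀ i j, A1 i j = t * w i j := fun i j => by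
          simp only [w]; field_simp
        rw [lap_apply, lap_apply]
        simp only [e1]
        split_ifs with h
        · rw [← Finset.mul_sum]; ring
        · ring
      have e2 : ∑ i ∈ s, ∑ v, ∑ x,
          hL.eigenvectorBasis i v * (lap A1 v x * hL.eigenvectorBasis i x)
          = t * ∑ i ∈ s, ∑ v, ∑ x,
            hL.eigenvectorBasis i v * (lap w v x * hL.eigenvectorBasis i x) := by
        simp only [Finset.mul_sum]
        refine Finset.sum_congr rfl fun i _ => Finset.sum_congr rfl fun v _ =>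
          Finset.sum_congr rfl fun x _ => ?_
        rw [hA1w]; ring
      have e3 : ∑ p ∈ pairs n, A1 p.1 p.2 = t * ∑ p ∈ pairs n, w p.1 p.2 := by
        rw [Finset.mul_sum]
        exact Finset.sum_congr rfl fun p _ => by simp only [w]; field_simp
      rw [sum_sym w hws hwd] at hB
      rw [e2, e3, hch, ← mul_add]
      refine mul_le_mul_of_nonneg_left ?_ hpos.le
      linarith
  rw [hsplit]
  linarith

end Pool.Agent.N340
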